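import Pool.Agent.DqF.Run

set_option autoImplicit false

/-!
# The axioms of `Pop` for a run of deque operations
-/

namespace Pool.Agent.DqF

open BinaryTree Pool.Agent.MP_c42954_lc.Scan Pool.Agent.SplLog Pool.Agent.SplPat Pool.Agent.SplLs
  Pool.Agent.SplDq
open scoped Classical

namespace Run

variable {R : Run} {s t u v w p g q b : ℕ}

-- MODULE sa
private theorem sa_a (ht : t < R.m) (h : R.k t ≠ Kd.popL) : R.a (t + 1) = R.a t := by
  rcases hk : R.k t with _ | _ | _ | _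
  · exact absurd hk h
  · exact (R.popR t ht hk).2.2.1
  · exact (R.pushL t ht hk).2.1
  · exact (R.pushR t ht hk).2.1

private theorem sa_up (ht : t < R.m) : R.x t ≤ R.a (t + 1) + 1 := by
  unfold x
  rw [if_pos ht]
  by_cases h : R.k t = Kd.popL
  · rw [if_pos h, (R.popL t ht h).2.2.1]
    omega
  · rw [if_neg h, sa_a ht h]

private theorem sa_lo (ht : t < R.m) : R.a t + 1 ≤ R.x t := by
  unfold x
  rw [if_pos ht]
  by_cases h : R.k t = Kd.popL
  · rw [if_pos h]
    exact (A_bd ht.le (popL_A ht h).1).1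
  · rw [if_neg h]

private theorem sa_top (ht : t < R.m) : R.x t ≤ R.top := by
  have h1 := sa_up ht
  have h2 := R.ab (t + 1) ht
  have h3 := R.bt (t + 1) ht
  omega

private theorem sa_ge (ht : ¬ t < R.m) : R.x t = R.top := by
  unfold x
  rw [if_neg ht]

theorem x_mono : Monotone R.x := by
  refine monotone_nat_of_le_succ (fun t => ?_)
  by_cases ht : t < R.m
  · by_cases ht' : t + 1 < R.m
    · exact (sa_up ht).trans (sa_lo ht')
    · rw [sa_ge ht']
      exact sa_top ht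
  · rw [sa_ge ht, sa_ge (by omega)]

theorem x_le (t : ℕ) : R.x t ≤ R.top := by
  by_cases ht : t < R.m
  · exact sa_top ht
  · exact (sa_ge ht).le

theorem x_popL (ht : t < R.m) (h : R.k t = Kd.popL) : R.x t = R.X t := by
  unfold x
  rw [if_pos ht, if_pos h]

theorem V_dom (t v : ℕ) (h : R.V t v) : t < R.m ∧ R.x t < v ∧ v ≤ R.top := by
  obtain ⟨h1, h2, h3, h4, h5, h6⟩ := h
  refine ⟨h1, ?_, ?_⟩
  · rw [x_popL h1 h2]
    exact popL_min h1 h2 (((popL_A h1 h2).2 v).1 h3 |>.resolve_left h4)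
  · have h7 := (A_bd h1.le h3).2
    have h8 := R.bt t h1.le
    omega

theorem B_dom (t v : ℕ) (h : R.B t v) : t < R.m ∧ v ≤ R.top := by
  have h1 := M_le_b (R := R) h.1.le
  have h2 := R.bt t h.1.le
  have h3 := h.2.1
  exact ⟨h.1, by omega⟩

theorem B_V (t v w : ℕ) (h : R.B t v) : ¬ R.V t w := by
  intro h1
  have h2 := h1.2.1
  rcases h.2.2 with h3 | h3
  · rw [h3.1] at h2
    cases h2
  · rw [h3.1] at h2
    cases h2
-- END sa

-- MODULE sb
/-- the facts of a kill -/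
theorem K_facts (h : R.K t p g) : R.V t p ∧ p < g ∧ R.lam t p = R.lam t g ∧ R.rho t p = g ∧
    R.rho (t + 1) p = R.rho t g ∧ R.rho (t + 1) g = R.rho t g ∧ R.lam (t + 1) p = R.X t := by
  obtain ⟨⟨h1, h2, h3, h4, h5, h6⟩, h7, h8⟩ := h
  have hA : R.A (t + 1) g := (((popL_A h1 h2).2 g).1 h3).resolve_left h4
  rcases popL_RF h1 h2 hA with c | ⟨c1, c2, c3⟩ | ⟨c1, p', c2, c3, c4, c5, c6, c7, c8, c9, c10⟩
  · omega
  · omega
  · have e : p' = p := by omega
    subst e
    exact ⟨⟨h1, h2, c2, by omega, by omega, by omega⟩, c4, c7, c8, c10, c6, c9⟩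

theorem K_V (t p g : ℕ) (h : R.K t p g) : R.V t p ∧ R.V t g ∧ p < g ∧
    ∀ v, R.V t v → p < v → g ≤ v := by
  obtain ⟨k1, k2, k3, k4, k5, k6, k7⟩ := K_facts h
  refine ⟨k1, h.1, k2, fun v hv hpv => ?_⟩
  by_contra hc
  have h1 := h.2.1
  have h2 := hv.2.2.2.2.1
  rcases lamin k1.1.le k1.2.2.1 hv.2.2.1 hpv with c | c | c
  · omega
  · omega
  · omega
-- END sb

-- MODULE sc
private theorem sc_V (h : R.V t v) : R.a t < R.X t ∧ R.x t = R.X t ∧ R.X t < v ∧ v < R.rho t v ∧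
    R.lam t v < R.X t ∧ R.A t v ∧ v < R.M ∧ t < R.m ∧ R.A (t + 1) v := by
  obtain ⟨h1, h2, h3, h4, h5, h6⟩ := h
  have h7 := popL_A h1 h2
  have h8 : R.A (t + 1) v := by
    rcases (h7.2 v).1 h3 with h | h
    · exact absurd h h4
    · exact h
  exact ⟨(A_bd h1.le h7.1).1, x_popL h1 h2, popL_min h1 h2 h8, lt_rho h1.le h3, h5, h3, h6, h1, h8⟩

theorem bur (t p g : ℕ) (h : R.K t p g) (hw : ∃ w, R.V t w ∧ g < w) (s z : ℕ) (hs : t < s)
    (hx : R.x s ≤ p) (hpz : p < z) (hzg : z ≤ g) : ¬ R.V s z := by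
  intro hz
  obtain ⟨w, hw, hgw⟩ := hw
  obtain ⟨f1, f2, f3, f4, f5, f6, f7⟩ := K_facts h
  obtain ⟨z1, z2, z3, z4, z5, z6, z7, z8, z9⟩ := sc_V hz
  obtain ⟨g1, g2, g3, g4, g5, g6, g7, g8, g9⟩ := sc_V h.1
  obtain ⟨w1, w2, w3, w4, w5, w6, w7, w8, w9⟩ := sc_V hw
  obtain ⟨p1, p2, p3, p4, p5, p6, p7, p8, p9⟩ := sc_V f1
  have hr : R.rho t g ≤ w := by
    rcases lamin g8.le g6 w6 hgw with h | h | h
    · omega
    · exact h.2.1
    · omega
  have hl : R.lam (t + 1) g = p := h.2.2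
  have ha := a_mono (R := R) (s := t) (t := s) hs.le z8.le
  by_cases hA : R.A (t + 1) z
  · have h4 : p ≤ R.lam (t + 1) z ∧ R.rho (t + 1) z < R.M := by
      have h5 := lam_lt (t := t + 1) (by omega) hA
      rcases lamin (t := t + 1) (by omega) p9 hA hpz with h | h | h
      · omega
      · omega
      · omega
    have h5 := buried (t := s) hA hs z8.le (by omega) h4.2
    omega
  · obtain ⟨u, hu1, hu2, hu3, hu4, hu5⟩ := birth z6 (s := t + 1) hs z8.le hA
    have hau := a_mono (R := R) (s := u) (t := s) hu2.le z8.le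
    rcases hu4 with hu4 | hu4
    · have h6 : R.A u p := stay p9 hu1 (by omega) p7 (by omega)
      have := pushL_min (by omega) hu4 h6
      omega
    · have h6 : R.A u g := stay g9 hu1 (by omega) g7 (by omega)
      have := pushR_max (by omega) hu4 h6
      omega
-- END sc

-- MODULE sd
/-- a key `g'` larger than a touched key `g` which is visible while `g` is not popped -/
theorem stored (b g g' t : ℕ) (hB : R.B b g) (hg : g < g') (hV : R.V t g') (hb : b < t)
    (hx : R.x t ≤ g) (hA : R.A b g') : g ≤ R.lam b g' ∧ R.M ≤ R.rho b g' := by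
  obtain ⟨z1, z2, z3, z4, z5, z6, z7, z8, z9⟩ := sc_V hV
  obtain ⟨b1, b2, b3⟩ := hB
  rcases b3 with ⟨c1, c2, c3, c4⟩ | ⟨c1, c2⟩
  · have h0 := M_le_X b1 c1
    have h1 := lam_lt b1.le hA
    have h2 : g ≤ R.lam b g' := by
      rcases lamin b1.le c2 hA hg with h | h | h
      · exact h.2.1
      · omega
      · omega
    refine ⟨h2, ?_⟩
    by_contra h3
    have h5 := buried hA hb.le z8.le (by omega) (not_le.1 h3)
    omega
  · have := pushR_max b1 c1 hA
    omega

/-- otherwise it is pushed on the right later -/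
theorem born (b g g' t : ℕ) (hB : R.B b g) (hg : g < g') (hV : R.V t g') (hb : b < t)
    (hx : R.x t ≤ g) (hA : ¬ R.A b g') : ∃ u, b < u ∧ u < t ∧ R.B u g' ∧
      ∀ s v, b ≤ s → s ≤ u → R.A s v → v < R.M → v < g' := by
  obtain ⟨z1, z2, z3, z4, z5, z6, z7, z8, z9⟩ := sc_V hV
  obtain ⟨b1, b2, b3⟩ := hB
  obtain ⟨u, hu1, hu2, hu3, hu4, hu5⟩ := birth z6 hb.le z8.le hA
  have hau := a_mono (R := R) (s := u) (t := t) hu2.le z8.le
  have hbu : b < u := by
    rcases Nat.eq_or_lt_of_le hu1 with h | h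
    · exfalso
      subst h
      rcases b3 with ⟨c1, c2, c3, c4⟩ | ⟨c1, c2⟩
      · rw [c1] at hu4
        rcases hu4 with h | h <;> exact absurd h (by simp)
      · omega
    · exact h
  have hgA : R.A (b + 1) g := by
    rcases b3 with ⟨c1, c2, c3, c4⟩ | ⟨c1, c2⟩
    · rcases ((popR_A b1 c1).2 g).1 c2 with h | h
      · exact absurd h c3
      · exact h
    · exact (pushR_A b1 c1 g).2 (Or.inl c2)
  have hgu : R.A u g := stay hgA hbu (by omega) b2 (by omega)
  rcases hu4 with hu4 | hu4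
  · have := pushL_min (by omega) hu4 hgu
    omega
  · refine ⟨u, hbu, hu2, ⟨by omega, z7, Or.inr ⟨hu4, hu5.symm⟩⟩, ?_⟩
    intro s v hs1 hs2 hv hvM
    rcases Nat.lt_or_ge (R.a u) v with h | h
    · have h1 := stay hv hs2 (by omega) hvM h
      have := pushR_max (by omega) hu4 h1
      omega
    · have h1 := (R.pushR u (by omega) hu4).2.1
      have h2 : R.A (u + 1) (R.X u) := (pushR_A (by omega) hu4 _).2 (Or.inl rfl)
      have h3 := (A_bd (t := u + 1) (by omega) h2).1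
      omega

theorem hid (b g g' t : ℕ) (hB : R.B b g) (hg : g < g') (hV : R.V t g') (hb : b < t)
    (hx : R.x t ≤ g) (s : ℕ) (hbs : b ≤ s) (hst : s ≤ t)
    (hN : ∀ u, b ≤ u → u ≤ s → ¬ R.B u g') (v : ℕ) (hv : R.V s v) : v < g' := by
  obtain ⟨z1, z2, z3, z4, z5, z6, z7, z8, z9⟩ := sc_V hV
  obtain ⟨y1, y2, y3, y4, y5, y6, y7, y8, y9⟩ := sc_V hv
  by_cases hA : R.A b g'
  · obtain ⟨h1, h2⟩ := stored b g g' t hB hg hV hb hx hA
    have has := a_mono (R := R) (s := s) (t := t) hst z8.le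
    obtain ⟨h3, h4⟩ := hidden hA hbs y8.le (by omega) z7 (fun u h1 h2 => hN u h1 h2.le)
    have hxx := x_mono (R := R) hst
    by_contra hc
    rcases Nat.eq_or_lt_of_le (not_lt.1 hc) with h10 | h10
    · rw [← h10] at y5
      omega
    · rcases lamin y8.le h3 y6 h10 with h | h | h
      · omega
      · have h5 := buried (t := t) h3 hst z8.le (by omega) (by omega)
        omega
      · have := lt_rho y8.le h3
        omega
  · obtain ⟨u, h1, h2, h3, h4⟩ := born b g g' t hB hg hV hb hx hA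
    rcases Nat.lt_or_ge s u with h5 | h5
    · exact h4 s v hbs h5.le y6 y7
    · exact absurd h3 (hN u h1.le h5)
-- END sd

-- MODULE se
theorem nest (b g t1 p1 g1 g' t : ℕ) (hB : R.B b g) (hK : R.K t1 p1 g1) (h1 : t1 < b)
    (hx1 : R.x b ≤ p1) (hN : ∀ u, t1 < u → u ≤ b → ¬ R.B u g1) (hg : g < g') (hg1 : g' < g1)
    (hV : R.V t g') (hb : b < t) (hx : R.x t ≤ g) : g' ≤ p1 := by
  obtain ⟨z1, z2, z3, z4, z5, z6, z7, z8, z9⟩ := sc_V hK.1
  have hbm : b < R.m := hB.1
  have hxb : R.x b = R.a b + 1 := by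
    unfold x
    rw [if_pos hbm]
    rcases hB.2.2 with ⟨c1, _⟩ | ⟨c1, _⟩
    · rw [if_neg (by rw [c1]; simp)]
    · rw [if_neg (by rw [c1]; simp)]
  have hl : R.lam (t1 + 1) g1 = p1 := hK.2.2
  obtain ⟨h3, h4⟩ := hidden z9 h1 hbm.le (by omega) z7 (fun u h1 h2 => hN u h1 h2.le)
  by_cases hA : R.A b g'
  · obtain ⟨h5, h6⟩ := stored b g g' t hB hg hV hb hx hA
    have h7 := lam_lt hbm.le h3
    rcases lamin hbm.le hA h3 hg1 with h | h | h
    · omega
    · omega
    · omega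
  · obtain ⟨u, h5, h6, h7, h8⟩ := born b g g' t hB hg hV hb hx hA
    have := h8 b g1 le_rfl h5.le h3 z7
    omega
-- END se

-- MODULE sf
theorem prev (t1 p g t2 : ℕ) (hK : R.K t1 p g) (h : t1 < t2) (hV : R.V t2 g)
    (hN : ∀ u, t1 < u → u < t2 → ¬ R.B u g) : p < R.x t2 := by
  by_contra hc
  obtain ⟨z1, z2, z3, z4, z5, z6, z7, z8, z9⟩ := sc_V hK.1
  obtain ⟨y1, y2, y3, y4, y5, y6, y7, y8, y9⟩ := sc_V hV
  have hl : R.lam (t1 + 1) g = p := hK.2.2
  have h5 := (hidden z9 h y8.le (by omega) z7 (fun u h1 h2 => hN u h1 h2)).2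
  omega

theorem vis (t0 p0 v t : ℕ) (h0 : R.V t0 p0) (hp : p0 < v) (h : t0 < t) (hV : R.V t v)
    (hx : R.x t ≤ p0) (hN : ∀ u, t0 < u → u < t → ¬ R.B u v) : R.V t0 v := by
  have h0' := h0
  obtain ⟨h1, h2, h3, h4, h5, h6⟩ := h0'
  obtain ⟨z1, z2, z3, z4, z5, z6, z7, z8, z9⟩ := sc_V h0
  obtain ⟨y1, y2, y3, y4, y5, y6, y7, y8, y9⟩ := sc_V hV
  have hN' : ∀ u, t0 ≤ u → u < t → ¬ R.B u v := by
    intro u hu1 hu2
    rcases Nat.eq_or_lt_of_le hu1 with h7 | h7
    · rw [← h7]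
      intro h8
      exact B_V _ _ _ h8 h0
    · exact hN u h7 hu2
  by_cases hA : R.A t0 v
  · by_contra hc
    have h7 : R.X t0 ≤ R.lam t0 v := by
      by_contra h8
      exact hc ⟨h1, h2, hA, by omega, by omega, y7⟩
    have h8 : p0 ≤ R.lam t0 v := by
      rcases lamin h1.le h3 hA hp with h | h | h
      · exact h.2.1
      · omega
      · omega
    have h9 := (hidden hA h.le y8.le (by omega) y7 hN').2
    omega
  · exfalso
    obtain ⟨u, hu1, hu2, hu3, hu4, hu5⟩ := birth y6 h.le y8.le hA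
    have hau := a_mono (R := R) (s := u) (t := t) hu2.le y8.le
    rcases hu4 with hu4 | hu4
    · have h6 : R.A u p0 := stay h3 hu1 (by omega) z7 (by omega)
      have := pushL_min (by omega) hu4 h6
      omega
    · exact hN' u hu1 hu2 ⟨by omega, y7, Or.inr ⟨hu4, hu5.symm⟩⟩
-- END sf

/-! ### One pop as a run of one splay -/

theorem bd0 (ht : t ≤ R.m) : Bd 0 R.top (R.T t) := by
  intro v hv
  have h1 := R.bd t ht v hv
  have h2 := R.bt t ht
  exact ⟨by omega, by omega⟩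

/-- the splay of a pop -/
def one (R : Run) (t : ℕ) (ht : t ≤ R.m) (h : R.A t (R.X t)) : Sys :=
  sysOf (R.T t) (fun _ => R.X t) 1 R.top (R.bst t ht) (fun _ _ => h) (bd0 ht)

-- MODULE sg
private theorem sg_lt (ht : t < R.m) (h : R.k t = Kd.popL) (hv : R.A t v) :
    R.X t < v ↔ v ≠ R.X t := by
  constructor
  · intro h1
    omega
  · intro h1
    rcases ((popL_A ht h).2 v).1 hv with h2 | h2
    · exact absurd h2 h1
    · exact popL_min ht h h2

/-- moving the left wall to `0` -/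
private theorem sg_lm (ht : t < R.m) (h : R.k t = Kd.popL) (hv : R.A t v) :
    lm v (R.T t) 0 < R.X t ↔ R.lam t v < R.X t := by
  have h1 := lm_wall (lo := R.a t) (lo' := 0) (hi := R.b t) (R.bst t ht.le) (R.bd t ht.le) hv
  have h2 := (A_bd ht.le (popL_A ht h).1).1
  unfold lam
  by_cases h3 : lm v (R.T t) (R.a t) = R.a t
  · rw [h1.1 h3, h3]
    constructor
    · intro _
      exact h2
    · intro _
      omega
  · rw [h1.2 h3]

theorem one_V (ht : t < R.m) (h : R.k t = Kd.popL) (v : ℕ) :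
    Vs (R.one t ht.le (popL_A ht h).1) R.M 0 v ↔ R.V t v := by
  constructor
  · rintro ⟨⟨_, h2, h3, h4⟩, h5⟩
    have hv : R.A t v := List.mem_toFinset.1 h2
    have h3' : R.X t < v := h3
    have h4' : lm v (R.T t) 0 < R.X t := h4
    exact ⟨ht, h, hv, (sg_lt ht h hv).1 h3', (sg_lm ht h hv).1 h4', h5⟩
  · rintro ⟨_, _, hv, h3, h4, h5⟩
    refine ⟨⟨Nat.one_pos, List.mem_toFinset.2 hv, ?_, ?_⟩, h5⟩
    · show R.X t < v
      exact (sg_lt ht h hv).2 h3
    · show lm v (R.T t) 0 < R.X t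
      exact (sg_lm ht h hv).2 h4

theorem one_K (ht : t < R.m) (h : R.k t = Kd.popL) (p g : ℕ) :
    Ks (R.one t ht.le (popL_A ht h).1) R.M 0 p g ↔ R.K t p g := by
  have key : R.X t < g → (R.one t ht.le (popL_A ht h).1).lam (0 + 1) g = R.lam (t + 1) g := by
    intro hg
    show lm g (splay (R.X t) (R.T t)) 0 = lm g (R.T (t + 1)) (R.a (t + 1))
    obtain ⟨_, h2, h3, _⟩ := R.popL t ht h
    rw [h2, h3, lm_gt hg]
  constructor
  · rintro ⟨⟨h1, h2, h3⟩, h4⟩
    have hV := (one_V ht h g).1 ⟨h1, h4⟩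
    have hg : R.X t < g := (sg_lt ht h hV.2.2.1).2 hV.2.2.2.1
    exact ⟨hV, h2, (key hg).symm.trans h3⟩
  · rintro ⟨h1, h2, h3⟩
    have hg : R.X t < g := (sg_lt ht h h1.2.2.1).2 h1.2.2.2.1
    have hV := (one_V ht h g).2 h1
    exact ⟨⟨hV.1, h2, (key hg).trans h3⟩, hV.2⟩

theorem one_Io (ht : t < R.m) (h : R.k t = Kd.popL) :
    Io (R.one t ht.le (popL_A ht h).1) R.M 0 = 0 := by
  have h1 : nL (R.one t ht.le (popL_A ht h).1) 0 = 0 := by
    unfold nL
    rw [Finset.card_eq_zero]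
    refine Finset.filter_eq_empty_iff.2 fun v _ hL => ?_
    obtain ⟨_, h2, h3, _⟩ := hL
    have hv : R.A t v := List.mem_toFinset.1 h2
    have h3' : v < R.X t := h3
    have h4 := (sg_lt ht h hv).2 (by omega)
    omega
  unfold Io
  rw [h1]
  simp
-- END sg

-- MODULE sh
private theorem sh_V (h : R.k t ≠ Kd.popL) (v : ℕ) : ¬ R.V t v := fun hV => h hV.2.1

private theorem sh_K (h : R.k t ≠ Kd.popL) (g : ℕ) : ¬ ∃ p, R.K t p g :=
  fun ⟨_, hK⟩ => h hK.1.2.1

private theorem sh_M (R : Run) : R.M ≤ R.top :=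
  (M_le_b le_rfl).trans (R.bt R.m le_rfl)

theorem irr (t : ℕ) (ht : t < R.m) :
    ((Finset.range (R.top + 1)).filter (fun g => (∃ p, R.K t p g) ∧ ∃ w, g ≤ w ∧
      3 * ((Finset.Icc g w).filter (fun v => R.V t v)).card + 4 <
        4 * ((Finset.Icc g w).filter (fun v => R.V t v ∧ ¬ ∃ p, R.K t p v)).card)).card ≤ 0 := by
  by_cases h : R.k t = Kd.popL
  · have h1 := ax_irr (S := R.one t ht.le (popL_A ht h).1) (M := R.M)
      (thr_sys (R.bst t ht.le) (fun _ _ => (popL_A ht h).1) (bd0 ht.le)) (sh_M R) 0 Nat.one_pos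
    have eV : Vs (R.one t ht.le (popL_A ht h).1) R.M 0 = R.V t :=
      funext fun v => propext (one_V ht h v)
    have eK : Ks (R.one t ht.le (popL_A ht h).1) R.M 0 = R.K t :=
      funext fun p => funext fun g => propext (one_K ht h p g)
    rw [eV, eK, one_Io ht h] at h1
    exact h1
  · rw [Nat.le_zero, Finset.card_eq_zero]
    exact Finset.filter_eq_empty_iff.2 fun g _ hg => sh_K h g hg.1

theorem many (t : ℕ) (ht : t < R.m) :
    ((Finset.range (R.top + 1)).filter (fun v => R.V t v)).card ≤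
      2 * ((Finset.range (R.top + 1)).filter (fun g => ∃ p, R.K t p g)).card + 4 + 0 := by
  by_cases h : R.k t = Kd.popL
  · have h1 := ax_many (S := R.one t ht.le (popL_A ht h).1) (M := R.M)
      (thr_sys (R.bst t ht.le) (fun _ _ => (popL_A ht h).1) (bd0 ht.le)) (sh_M R) 0 Nat.one_pos
    have eV : Vs (R.one t ht.le (popL_A ht h).1) R.M 0 = R.V t :=
      funext fun v => propext (one_V ht h v)
    have eK : Ks (R.one t ht.le (popL_A ht h).1) R.M 0 = R.K t :=
      funext fun p => funext fun g => propext (one_K ht h p g)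
    rw [eV, eK, one_Io ht h] at h1
    exact h1
  · have h1 : (Finset.range (R.top + 1)).filter (fun v => R.V t v) = ∅ :=
      Finset.filter_eq_empty_iff.2 fun v _ => sh_V h v
    rw [h1, Finset.card_empty]
    exact Nat.zero_le _
-- END sh

/-- The structure `Pop` of the left pops. -/
noncomputable def toPop (R : Run) : Pop where
  n := R.top
  m := R.m
  x := R.x
  V := R.V
  K := R.K
  B := R.B
  io := fun _ => 0
  x_mono := x_mono
  x_le := x_le
  V_dom := V_dom
  B_dom := B_dom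
  B_V := B_V
  K_V := K_V
  bur := bur
  hid := hid
  nest := nest
  prev := prev
  vis := vis
  irr := irr
  many := many

end Run

end Pool.Agent.DqF
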