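import Pool.Agent.DqF.Mir

set_option autoImplicit false

/-!
# Naming the keys of a sequence of deque operations
-/

namespace Pool.Agent.DqF

open BinaryTree Pool.Agent.MP_c42954_lc.Scan Pool.Agent.SplLog Pool.Agent.SplPat Pool.Agent.SplLs
  Pool.Agent.SplDq

/-- The right subtree of the root. -/
def rsub : BinaryTree ℕ → BinaryTree ℕ
  | .nil => .nil
  | .node _ _ r => r

/-- The left subtree of the root. -/
def lsub : BinaryTree ℕ → BinaryTree ℕ
  | .nil => .nil
  | .node _ l _ => l

/-- `Deque T m c`: a sequence of `m` deque operations, starting with the splay tree `T`, of total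
cost `c`. -/
inductive Deque : BinaryTree ℕ → ℕ → ℕ → Prop
  | nil (T : BinaryTree ℕ) : Deque T 0 0
  | pop {T : BinaryTree ℕ} {x m c : ℕ} : x ∈ inorder T → (∀ v ∈ inorder T, x ≤ v) →
      Deque (rsub (splay x T)) m c → Deque T (m + 1) (1 + depth x T + c)
  | eject {T : BinaryTree ℕ} {x m c : ℕ} : x ∈ inorder T → (∀ v ∈ inorder T, v ≤ x) →
      Deque (lsub (splay x T)) m c → Deque T (m + 1) (1 + depth x T + c)
  | push {T : BinaryTree ℕ} {x m c : ℕ} : (∀ v ∈ inorder T, x < v) →
      Deque (.node x .nil T) m c → Deque T (m + 1) (1 + c)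
  | inject {T : BinaryTree ℕ} {x m c : ℕ} : (∀ v ∈ inorder T, v < x) →
      Deque (.node x T .nil) m c → Deque T (m + 1) (1 + c)

/-- strictly monotone on the keys -/
def SMo (f : ℕ → ℕ) (K : List ℕ) : Prop := ∀ u ∈ K, ∀ v ∈ K, u < v → f u < f v

-- MODULE la
theorem mapT_bst {f : ℕ → ℕ} {T : BinaryTree ℕ} (hb : IsBST T) (hf : SMo f (inorder T)) :
    IsBST (mapT f T) := by
  unfold IsBST at hb ⊢
  rw [mapT_inorder, List.pairwise_map]
  exact List.Pairwise.imp_of_mem (fun ha hb' h => hf _ ha _ hb' h) hb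

theorem SMo.mono {f : ℕ → ℕ} {K : List ℕ} (hf : SMo f K) {x : ℕ} (hx : x ∈ K) : Mono f x K :=
  fun a ha => ⟨hf x hx a ha, hf a ha x hx⟩

theorem mapT_mapT (f g : ℕ → ℕ) (T : BinaryTree ℕ) : mapT g (mapT f T) = mapT (fun v => g (f v)) T := by
  induction T with
  | nil => rfl
  | node a l r ihl ihr => simp only [mapT, ihl, ihr]

theorem mapT_congr {f g : ℕ → ℕ} {T : BinaryTree ℕ} (h : ∀ v ∈ inorder T, f v = g v) :
    mapT f T = mapT g T := by
  induction T with
  | nil => rfl
  | node a l r ihl ihr =>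
    simp only [mapT]
    rw [h a (by simp [inorder]), ihl fun v hv => h v (by simp [inorder, hv]),
      ihr fun v hv => h v (by simp [inorder, hv])]
-- END la

-- MODULE lb
private theorem lb_root {x : ℕ} {T : BinaryTree ℕ} (hb : IsBST T) (hx : x ∈ inorder T) :
    ∃ l r, splay x T = .node x l r := by
  have h := splay_root hb hx
  cases hs : splay x T with
  | nil =>
    rw [hs] at h
    simp [At] at h
  | node a l r =>
    rw [hs] at h
    simp only [At] at h
    subst h
    exact ⟨l, r, rfl⟩

theorem splay_min {x : ℕ} {T : BinaryTree ℕ} (hb : IsBST T) (hx : x ∈ inorder T)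
    (hmin : ∀ v ∈ inorder T, x ≤ v) : splay x T = .node x .nil (rsub (splay x T)) ∧
      inorder T = x :: inorder (rsub (splay x T)) := by
  obtain ⟨l, r, h1⟩ := lb_root hb hx
  have h2 := splay_inorder hb hx
  have h3 := splay_bst hb hx
  rw [h1] at h2 h3 ⊢
  have h4 : l = .nil := by
    cases l with
    | nil => rfl
    | node a l' r' =>
      exfalso
      have h5 : a ∈ inorder T := by
        rw [← h2]
        simp [inorder]
      have h6 := hmin a h5
      unfold IsBST at h3
      simp only [inorder] at h3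
      have h7 := (List.pairwise_append.1 h3).2.2 a (by simp) x (by simp)
      omega
  subst h4
  exact ⟨rfl, by rw [← h2]; rfl⟩

theorem splay_max {x : ℕ} {T : BinaryTree ℕ} (hb : IsBST T) (hx : x ∈ inorder T)
    (hmax : ∀ v ∈ inorder T, v ≤ x) : splay x T = .node x (lsub (splay x T)) .nil ∧
      inorder T = inorder (lsub (splay x T)) ++ [x] := by
  obtain ⟨l, r, h1⟩ := lb_root hb hx
  have h2 := splay_inorder hb hx
  have h3 := splay_bst hb hx
  rw [h1] at h2 h3 ⊢
  have h4 : r = .nil := by
    cases r with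
    | nil => rfl
    | node a l' r' =>
      exfalso
      have h5 : a ∈ inorder T := by
        rw [← h2]
        simp [inorder]
      have h6 := hmax a h5
      unfold IsBST at h3
      simp only [inorder] at h3
      have h7 := (List.pairwise_cons.1 (List.pairwise_append.1 h3).2.1).1 a (by simp)
      omega
  subst h4
  exact ⟨rfl, by rw [← h2]; rfl⟩
-- END lb

-- MODULE lc
private theorem lc_mono (x : ℕ) (K : List ℕ) : Mono (fun v => v + 1) x K :=
  fun a _ => ⟨fun h => Nat.add_lt_add_right h 1, fun h => Nat.add_lt_add_right h 1⟩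

private theorem lc_mem {x : ℕ} {T : BinaryTree ℕ} (h : x ∈ inorder T) :
    x + 1 ∈ inorder (mapT (fun v => v + 1) T) := by
  rw [mapT_inorder]
  exact List.mem_map.2 ⟨x, h, rfl⟩

/-- all names raised by one -/
def Run.shift (R : Run) : Run where
  top := R.top + 1
  m := R.m
  T t := mapT (fun v => v + 1) (R.T t)
  k := R.k
  X t := R.X t + 1
  a t := R.a t + 1
  b t := R.b t + 1
  bst := by
    intro t ht
    have h := R.bst t ht
    unfold IsBST at h ⊢
    rw [mapT_inorder, List.pairwise_map]
    exact h.imp (fun h => Nat.add_lt_add_right h 1)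
  bd := by
    intro t ht v hv
    rw [mapT_inorder, List.mem_map] at hv
    obtain ⟨w, hw, rfl⟩ := hv
    have := R.bd t ht w hw
    omega
  ab := by
    intro t ht
    have := R.ab t ht
    omega
  bt := by
    intro t ht
    have := R.bt t ht
    omega
  popL := by
    intro t ht hk
    obtain ⟨h1, h2, h3, h4⟩ := R.popL t ht hk
    refine ⟨lc_mem h1, ?_, by omega, by omega⟩
    have := mapT_splay (R.bst t ht.le) h1 (lc_mono _ _)
    rw [h2] at this
    exact this
  popR := by
    intro t ht hk
    obtain ⟨h1, h2, h3, h4⟩ := R.popR t ht hk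
    refine ⟨lc_mem h1, ?_, by omega, by omega⟩
    have := mapT_splay (R.bst t ht.le) h1 (lc_mono _ _)
    rw [h2] at this
    exact this
  pushL := by
    intro t ht hk
    obtain ⟨h1, h2, h3⟩ := R.pushL t ht hk
    refine ⟨?_, by omega, by omega⟩
    rw [h1]
    rfl
  pushR := by
    intro t ht hk
    obtain ⟨h1, h2, h3⟩ := R.pushR t ht hk
    refine ⟨?_, by omega, by omega⟩
    rw [h1]
    rfl

theorem shift_cost (R : Run) : R.shift.cost = R.cost := by
  unfold Run.cost
  refine Finset.sum_congr rfl (fun t _ => ?_)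
  have h : depth (R.X t + 1) (mapT (fun v => v + 1) (R.T t)) = depth (R.X t) (R.T t) :=
    mapT_depth (f := fun v => v + 1) (lc_mono _ _)
  show (match R.k t with
    | Kd.popL => 1 + depth (R.X t + 1) (mapT (fun v => v + 1) (R.T t))
    | Kd.popR => 1 + depth (R.X t + 1) (mapT (fun v => v + 1) (R.T t))
    | Kd.pushL => 1
    | Kd.pushR => 1) = _
  rw [h]
  cases R.k t <;> rfl
-- END lc

/-- a step from `(T, a, b)` to `(T', a', b')` -/
def Stp (k : Kd) (x : ℕ) (T T' : BinaryTree ℕ) (a a' b b' : ℕ) : Prop :=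
  match k with
  | Kd.popL => x ∈ inorder T ∧ splay x T = .node x .nil T' ∧ a' = x ∧ b' = b
  | Kd.popR => x ∈ inorder T ∧ splay x T = .node x T' .nil ∧ a' = a ∧ b' = x
  | Kd.pushL => T' = .node x .nil T ∧ a' = a ∧ b' = b
  | Kd.pushR => T' = .node x T .nil ∧ a' = a ∧ b' = b

-- MODULE ld
/-- one more operation at the beginning -/
def Run.cons (R : Run) (k : Kd) (x : ℕ) (T : BinaryTree ℕ) (a b top : ℕ) (hb : IsBST T)
    (hB : Bd a b T) (hab : a < b) (hbt : b ≤ top) (htop : R.top ≤ top)
    (hs : Stp k x T (R.T 0) a (R.a 0) b (R.b 0)) : Run where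
  top := top
  m := R.m + 1
  T t := match t with | 0 => T | t + 1 => R.T t
  k t := match t with | 0 => k | t + 1 => R.k t
  X t := match t with | 0 => x | t + 1 => R.X t
  a t := match t with | 0 => a | t + 1 => R.a t
  b t := match t with | 0 => b | t + 1 => R.b t
  bst := by
    rintro (_ | t) ht
    · exact hb
    · exact R.bst t (by omega)
  bd := by
    rintro (_ | t) ht
    · exact hB
    · exact R.bd t (by omega)
  ab := by
    rintro (_ | t) ht
    · exact hab
    · exact R.ab t (by omega)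
  bt := by
    rintro (_ | t) ht
    · exact hbt
    · exact (R.bt t (by omega)).trans htop
  popL := by
    rintro (_ | t) ht hk
    · have hk' : k = Kd.popL := hk
      rw [hk'] at hs
      exact hs
    · exact R.popL t (by omega) hk
  popR := by
    rintro (_ | t) ht hk
    · have hk' : k = Kd.popR := hk
      rw [hk'] at hs
      exact hs
    · exact R.popR t (by omega) hk
  pushL := by
    rintro (_ | t) ht hk
    · have hk' : k = Kd.pushL := hk
      rw [hk'] at hs
      exact hs
    · exact R.pushL t (by omega) hk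
  pushR := by
    rintro (_ | t) ht hk
    · have hk' : k = Kd.pushR := hk
      rw [hk'] at hs
      exact hs
    · exact R.pushR t (by omega) hk

theorem cons_cost (R : Run) (k : Kd) (x : ℕ) (T : BinaryTree ℕ) (a b top : ℕ) (hb : IsBST T)
    (hB : Bd a b T) (hab : a < b) (hbt : b ≤ top) (htop : R.top ≤ top)
    (hs : Stp k x T (R.T 0) a (R.a 0) b (R.b 0)) :
    (R.cons k x T a b top hb hB hab hbt htop hs).cost = (match k with
      | Kd.popL => 1 + depth x T
      | Kd.popR => 1 + depth x T
      | Kd.pushL => 1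
      | Kd.pushR => 1) + R.cost := by
  unfold Run.cost
  have h : (R.cons k x T a b top hb hB hab hbt htop hs).m = R.m + 1 := rfl
  rw [h, Finset.sum_range_succ', add_comm]
  cases k <;> rfl
-- END ld

/-- the statement of the naming -/
def Nam (T : BinaryTree ℕ) (m c : ℕ) : Prop :=
  ∃ (R : Run) (f : ℕ → ℕ), SMo f (inorder T) ∧ R.m = m ∧ R.T 0 = mapT f T ∧ R.a 0 = 0 ∧
    R.b 0 = R.top ∧ R.top ≤ (inorder T).length + m + 1 ∧ R.cost = c

-- MODULE le
private theorem le_idx {K : List ℕ} (hK : K.Pairwise (· < ·)) {a b : ℕ} (ha : a ∈ K) (hb : b ∈ K)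
    (hab : a < b) : K.idxOf a < K.idxOf b := by
  have h1 := List.idxOf_lt_length_of_mem ha
  have h2 := List.idxOf_lt_length_of_mem hb
  by_contra h
  push Not at h
  rcases Nat.eq_or_lt_of_le h with h3 | h3
  · have := (List.idxOf_inj hb).1 h3
    omega
  · have := List.pairwise_iff_getElem.1 hK _ _ h2 h1 h3
    rw [List.getElem_idxOf, List.getElem_idxOf] at this
    omega

theorem nam_nil {T : BinaryTree ℕ} (hb : IsBST T) : Nam T 0 0 := by
  have hf : SMo (fun v => (inorder T).idxOf v + 1) (inorder T) := by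
    intro u hu v hv huv
    have := le_idx hb hu hv huv
    show (inorder T).idxOf u + 1 < (inorder T).idxOf v + 1
    omega
  let R : Run :=
    { top := (inorder T).length + 1
      m := 0
      T := fun _ => mapT (fun v => (inorder T).idxOf v + 1) T
      k := fun _ => Kd.popL
      X := fun _ => 0
      a := fun _ => 0
      b := fun _ => (inorder T).length + 1
      bst := fun _ _ => mapT_bst hb hf
      bd := by
        intro t _ v hv
        rw [mapT_inorder, List.mem_map] at hv
        obtain ⟨u, hu, rfl⟩ := hv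
        have := List.idxOf_lt_length_of_mem hu
        show 0 < (inorder T).idxOf u + 1 ∧ (inorder T).idxOf u + 1 < (inorder T).length + 1
        omega
      ab := fun _ _ => Nat.succ_pos _
      bt := fun _ _ => le_refl _
      popL := fun t ht => absurd ht (Nat.not_lt_zero t)
      popR := fun t ht => absurd ht (Nat.not_lt_zero t)
      pushL := fun t ht => absurd ht (Nat.not_lt_zero t)
      pushR := fun t ht => absurd ht (Nat.not_lt_zero t) }
  refine ⟨R, _, hf, rfl, rfl, rfl, rfl, ?_, ?_⟩
  · show (inorder T).length + 1 ≤ (inorder T).length + 0 + 1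
    omega
  · show ∑ t ∈ Finset.range 0, _ = 0
    exact Finset.sum_range_zero _

theorem nam_pop {T : BinaryTree ℕ} {x m c : ℕ} (hb : IsBST T) (hx : x ∈ inorder T)
    (hmin : ∀ v ∈ inorder T, x ≤ v) (h : Nam (rsub (splay x T)) m c) :
    Nam T (m + 1) (1 + depth x T + c) := by
  obtain ⟨hsp, hin⟩ := splay_min hb hx hmin
  generalize rsub (splay x T) = T' at *
  obtain ⟨R, f', hf', hm, hT, ha, hbt, htop, hc⟩ := h
  have hb' := hb
  unfold IsBST at hb'
  rw [hin, List.pairwise_cons] at hb'
  have hlt : ∀ v ∈ inorder T', x < v := hb'.1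
  have hbd0 : ∀ v ∈ inorder T', 0 < f' v ∧ f' v < R.top := by
    intro v hv
    have := R.bd 0 (Nat.zero_le _) (f' v) (by
      rw [hT, mapT_inorder]
      exact List.mem_map_of_mem hv)
    rw [ha, hbt] at this
    exact this
  have htop0 : 0 < R.top := by
    have h1 := R.ab 0 (Nat.zero_le _)
    rw [ha, hbt] at h1
    exact h1
  obtain ⟨f, hfx, hfv⟩ : ∃ f : ℕ → ℕ, f x = 1 ∧ ∀ v ∈ inorder T', f v = f' v + 1 := by
    refine ⟨fun v => if v = x then 1 else f' v + 1, if_pos rfl, fun v hv => if_neg ?_⟩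
    have := hlt v hv
    omega
  have hmem : ∀ v, v ∈ inorder T ↔ v = x ∨ v ∈ inorder T' := by
    intro v
    rw [hin, List.mem_cons]
  have hf : SMo f (inorder T) := by
    intro u hu v hv huv
    rcases (hmem u).1 hu with rfl | hu' <;> rcases (hmem v).1 hv with rfl | hv'
    · omega
    · rw [hfx, hfv v hv']
      have := hbd0 v hv'
      omega
    · have := hlt u hu'
      omega
    · rw [hfv u hu', hfv v hv']
      have := hf' u hu' v hv' huv
      omega
  have hbst : IsBST (mapT f T) := mapT_bst hb hf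
  have hB : Bd 0 (R.top + 1) (mapT f T) := by
    intro v hv
    rw [mapT_inorder, List.mem_map] at hv
    obtain ⟨u, hu, rfl⟩ := hv
    rcases (hmem u).1 hu with rfl | hu'
    · rw [hfx]
      omega
    · rw [hfv u hu']
      have := hbd0 u hu'
      omega
  have hs : Stp Kd.popL 1 (mapT f T) (R.shift.T 0) 0 (R.shift.a 0) (R.top + 1) (R.shift.b 0) := by
    refine ⟨?_, ?_, ?_, ?_⟩
    · rw [mapT_inorder]
      exact List.mem_map.2 ⟨x, hx, hfx⟩
    · have h1 := mapT_splay hb hx (hf.mono hx)
      rw [hfx] at h1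
      rw [h1, hsp]
      show BinaryTree.node (f x) (mapT f .nil) (mapT f T') = _
      have h2 : R.shift.T 0 = mapT f T' := by
        show mapT (fun v => v + 1) (R.T 0) = mapT f T'
        rw [hT, mapT_mapT]
        exact mapT_congr fun v hv => (hfv v hv).symm
      rw [hfx, h2]
      rfl
    · show R.a 0 + 1 = 1
      rw [ha]
    · show R.b 0 + 1 = R.top + 1
      rw [hbt]
  have hst : R.shift.top ≤ R.top + 1 := Nat.le_refl (R.top + 1)
  refine ⟨R.shift.cons Kd.popL 1 (mapT f T) 0 (R.top + 1) (R.top + 1) hbst hB (Nat.succ_pos _)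
    (Nat.le_refl _) hst hs, f, hf, ?_, rfl, rfl, rfl, ?_, ?_⟩
  · show R.m + 1 = m + 1
    rw [hm]
  · show R.top + 1 ≤ _
    rw [hin, List.length_cons]
    omega
  · rw [cons_cost, shift_cost, hc]
    have h1 := mapT_depth (hf.mono hx)
    rw [hfx] at h1
    show 1 + depth 1 (mapT f T) + c = _
    rw [h1]
-- END le

-- MODULE lf
theorem nam_eject {T : BinaryTree ℕ} {x m c : ℕ} (hb : IsBST T) (hx : x ∈ inorder T)
    (hmax : ∀ v ∈ inorder T, v ≤ x) (h : Nam (lsub (splay x T)) m c) :
    Nam T (m + 1) (1 + depth x T + c) := by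
  obtain ⟨hsp, hin⟩ := splay_max hb hx hmax
  generalize lsub (splay x T) = T' at *
  obtain ⟨R, f', hf', hm, hT, ha, hbt, htop, hc⟩ := h
  have hb' := hb
  unfold IsBST at hb'
  rw [hin, List.pairwise_append] at hb'
  have hlt : ∀ v ∈ inorder T', v < x := fun v hv => hb'.2.2 v hv x (List.mem_singleton.2 rfl)
  have hbd0 : ∀ v ∈ inorder T', 0 < f' v ∧ f' v < R.top := by
    intro v hv
    have := R.bd 0 (Nat.zero_le _) (f' v) (by
      rw [hT, mapT_inorder]
      exact List.mem_map_of_mem hv)
    rw [ha, hbt] at this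
    exact this
  have htop0 : 0 < R.top := by
    have h1 := R.ab 0 (Nat.zero_le _)
    rw [ha, hbt] at h1
    exact h1
  obtain ⟨f, hfx, hfv⟩ : ∃ f : ℕ → ℕ, f x = R.top ∧ ∀ v ∈ inorder T', f v = f' v := by
    refine ⟨fun v => if v = x then R.top else f' v, if_pos rfl, fun v hv => if_neg ?_⟩
    have := hlt v hv
    omega
  have hmem : ∀ v, v ∈ inorder T ↔ v ∈ inorder T' ∨ v = x := by
    intro v
    rw [hin, List.mem_append, List.mem_singleton]
  have hf : SMo f (inorder T) := by
    intro u hu v hv huv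
    rcases (hmem u).1 hu with hu' | rfl <;> rcases (hmem v).1 hv with hv' | rfl
    · rw [hfv u hu', hfv v hv']
      exact hf' u hu' v hv' huv
    · rw [hfx, hfv u hu']
      exact (hbd0 u hu').2
    · have := hlt v hv'
      omega
    · omega
  have hbst : IsBST (mapT f T) := mapT_bst hb hf
  have hB : Bd 0 (R.top + 1) (mapT f T) := by
    intro v hv
    rw [mapT_inorder, List.mem_map] at hv
    obtain ⟨u, hu, rfl⟩ := hv
    rcases (hmem u).1 hu with hu' | rfl
    · rw [hfv u hu']
      have := hbd0 u hu'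
      omega
    · rw [hfx]
      omega
  have hs : Stp Kd.popR R.top (mapT f T) (R.T 0) 0 (R.a 0) (R.top + 1) (R.b 0) := by
    refine ⟨?_, ?_, ?_, ?_⟩
    · rw [mapT_inorder]
      exact List.mem_map.2 ⟨x, hx, hfx⟩
    · have h1 := mapT_splay hb hx (hf.mono hx)
      rw [hfx] at h1
      rw [h1, hsp]
      show BinaryTree.node (f x) (mapT f T') (mapT f .nil) = _
      have h2 : R.T 0 = mapT f T' := by
        rw [hT]
        exact mapT_congr fun v hv => (hfv v hv).symm
      rw [hfx, h2]
      rfl
    · exact ha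
    · exact hbt
  refine ⟨R.cons Kd.popR R.top (mapT f T) 0 (R.top + 1) (R.top + 1) hbst hB (Nat.succ_pos _)
    (le_refl _) (Nat.le_succ _) hs, f, hf, ?_, rfl, rfl, rfl, ?_, ?_⟩
  · show R.m + 1 = m + 1
    rw [hm]
  · show R.top + 1 ≤ _
    rw [hin, List.length_append, List.length_singleton]
    omega
  · rw [cons_cost, hc]
    have h1 := mapT_depth (hf.mono hx)
    rw [hfx] at h1
    show 1 + depth R.top (mapT f T) + c = _
    rw [h1]

theorem nam_push {T : BinaryTree ℕ} {x m c : ℕ} (hb : IsBST T) (hx : ∀ v ∈ inorder T, x < v)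
    (h : Nam (.node x .nil T) m c) : Nam T (m + 1) (1 + c) := by
  obtain ⟨R, f, hf', hm, hT, ha, hbt, htop, hc⟩ := h
  have hsub : ∀ v ∈ inorder T, v ∈ inorder (.node x .nil T) := by
    intro v hv
    simp [inorder, hv]
  have hf : SMo f (inorder T) := fun u hu v hv huv => hf' u (hsub u hu) v (hsub v hv) huv
  have htop0 : 0 < R.top := by
    have h1 := R.ab 0 (Nat.zero_le _)
    rw [ha, hbt] at h1
    exact h1
  have hB : Bd 0 R.top (mapT f T) := by
    intro v hv
    rw [mapT_inorder, List.mem_map] at hv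
    obtain ⟨u, hu, rfl⟩ := hv
    have := R.bd 0 (Nat.zero_le _) (f u) (by
      rw [hT, mapT_inorder]
      exact List.mem_map_of_mem (hsub u hu))
    rw [ha, hbt] at this
    exact this
  have hs : Stp Kd.pushL (f x) (mapT f T) (R.T 0) 0 (R.a 0) R.top (R.b 0) := ⟨hT, ha, hbt⟩
  refine ⟨R.cons Kd.pushL (f x) (mapT f T) 0 R.top R.top (mapT_bst hb hf) hB htop0
    (le_refl _) (le_refl _) hs, f, hf, ?_, rfl, rfl, rfl, ?_, ?_⟩
  · show R.m + 1 = m + 1
    rw [hm]
  · show R.top ≤ _
    have h1 : (inorder (.node x .nil T)).length = (inorder T).length + 1 := by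
      simp [inorder]
    omega
  · rw [cons_cost, hc]

theorem nam_inject {T : BinaryTree ℕ} {x m c : ℕ} (hb : IsBST T) (hx : ∀ v ∈ inorder T, v < x)
    (h : Nam (.node x T .nil) m c) : Nam T (m + 1) (1 + c) := by
  obtain ⟨R, f, hf', hm, hT, ha, hbt, htop, hc⟩ := h
  have hsub : ∀ v ∈ inorder T, v ∈ inorder (.node x T .nil) := by
    intro v hv
    simp [inorder, hv]
  have hf : SMo f (inorder T) := fun u hu v hv huv => hf' u (hsub u hu) v (hsub v hv) huv
  have htop0 : 0 < R.top := by
    have h1 := R.ab 0 (Nat.zero_le _)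
    rw [ha, hbt] at h1
    exact h1
  have hB : Bd 0 R.top (mapT f T) := by
    intro v hv
    rw [mapT_inorder, List.mem_map] at hv
    obtain ⟨u, hu, rfl⟩ := hv
    have := R.bd 0 (Nat.zero_le _) (f u) (by
      rw [hT, mapT_inorder]
      exact List.mem_map_of_mem (hsub u hu))
    rw [ha, hbt] at this
    exact this
  have hs : Stp Kd.pushR (f x) (mapT f T) (R.T 0) 0 (R.a 0) R.top (R.b 0) := ⟨hT, ha, hbt⟩
  refine ⟨R.cons Kd.pushR (f x) (mapT f T) 0 R.top R.top (mapT_bst hb hf) hB htop0
    (le_refl _) (le_refl _) hs, f, hf, ?_, rfl, rfl, rfl, ?_, ?_⟩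
  · show R.m + 1 = m + 1
    rw [hm]
  · show R.top ≤ _
    have h1 : (inorder (.node x T .nil)).length = (inorder T).length + 1 := by
      simp [inorder]
    omega
  · rw [cons_cost, hc]
-- END lf

-- MODULE lg
theorem nam {T : BinaryTree ℕ} {m c : ℕ} (hb : IsBST T) (h : Deque T m c) : Nam T m c := by
  induction h with
  | nil T => exact nam_nil hb
  | @pop T x m c hx hmin _ ih =>
    refine nam_pop hb hx hmin (ih ?_)
    have h1 := splay_min hb hx hmin
    have hs := splay_bst hb hx
    rw [h1.1] at hs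
    exact (bst_node.1 hs).2.1
  | @eject T x m c hx hmax _ ih =>
    refine nam_eject hb hx hmax (ih ?_)
    have h1 := splay_max hb hx hmax
    have hs := splay_bst hb hx
    rw [h1.1] at hs
    exact (bst_node.1 hs).1
  | @push T x m c hx _ ih =>
    refine nam_push hb hx (ih ?_)
    exact bst_node.2 ⟨by simp [IsBST, inorder], hb, by simp [inorder], hx⟩
  | @inject T x m c hx _ ih =>
    refine nam_inject hb hx (ih ?_)
    exact bst_node.2 ⟨hb, by simp [IsBST, inorder], hx, by simp [inorder]⟩

/-- **The deque conjecture.** -/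
theorem deque : ∃ C : ℕ, ∀ (T : BinaryTree ℕ) (m c : ℕ), IsBST T → Deque T m c →
    c ≤ C * ((inorder T).length + m) := by
  obtain ⟨C, hC⟩ := Run.cost_le
  refine ⟨C * 3, fun T m c hb h => ?_⟩
  rcases Nat.eq_zero_or_pos m with h0 | h0
  · subst h0
    cases h
    exact Nat.zero_le _
  obtain ⟨R, f, _, h2, _, _, _, h6, h7⟩ := nam hb h
  have h8 := hC R
  rw [h7, h2] at h8
  refine h8.trans ?_
  rw [Nat.mul_assoc]
  exact Nat.mul_le_mul_left _ (by omega)
-- END lg

end Pool.Agent.DqF
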