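import Pool.Agent.DqF.Ax

set_option autoImplicit false

/-!
# The mirror image of a run, and the touches of large keys by left pops
-/

namespace Pool.Agent.DqF

open BinaryTree Pool.Agent.MP_c42954_lc.Scan Pool.Agent.SplLog Pool.Agent.SplPat Pool.Agent.SplLs
  Pool.Agent.SplDq
open scoped Classical

/-- the mirror image of an operation -/
def Kd.mir : Kd → Kd
  | .popL => .popR
  | .popR => .popL
  | .pushL => .pushR
  | .pushR => .pushL

-- MODULE ta
theorem anti_sub {N : ℕ} {x lo hi : ℕ} {T : BinaryTree ℕ} (hB : Bd lo hi T) (hi' : hi ≤ N)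
    (hx : x ∈ inorder T) : Anti (fun v => N - v) x (inorder T) := by
  intro a ha
  have h1 := hB a ha
  have h2 := hB x hx
  constructor <;> intro h <;> simp only <;> omega

private theorem ta_mem {N v : ℕ} {T : BinaryTree ℕ} :
    v ∈ inorder (mirT (fun v => N - v) T) ↔ ∃ u ∈ inorder T, N - u = v := by
  rw [mirT_inorder]
  simp

theorem mirT_bst {N lo hi : ℕ} {T : BinaryTree ℕ} (hb : IsBST T) (hB : Bd lo hi T)
    (hi' : hi ≤ N) : IsBST (mirT (fun v => N - v) T) ∧
      Bd (N - hi) (N - lo) (mirT (fun v => N - v) T) := by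
  constructor
  · induction T generalizing lo hi with
    | nil => exact List.Pairwise.nil
    | node a l r ihl ihr =>
      obtain ⟨h1, h2, h3, h4⟩ := bst_node.1 hb
      obtain ⟨b1, b2, b3, b4⟩ := bd_node hb hB
      simp only [mirT]
      refine bst_node.2 ⟨ihr h2 b4 hi', ihl h1 b3 (by omega), ?_, ?_⟩
      · intro v hv
        obtain ⟨u, hu, rfl⟩ := ta_mem.1 hv
        have := h4 u hu
        have := b4 u hu
        omega
      · intro v hv
        obtain ⟨u, hu, rfl⟩ := ta_mem.1 hv
        have := h3 u hu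
        have := b3 u hu
        omega
  · intro v hv
    obtain ⟨u, hu, rfl⟩ := ta_mem.1 hv
    have := hB u hu
    omega

theorem mirT_lm {N lo hi v : ℕ} {T : BinaryTree ℕ} (hb : IsBST T) (hB : Bd lo hi T)
    (hi' : hi ≤ N) (hv : v ∈ inorder T) :
    lm (N - v) (mirT (fun v => N - v) T) (N - hi) = N - rh v T hi ∧
      rh (N - v) (mirT (fun v => N - v) T) (N - lo) = N - lm v T lo := by
  induction T generalizing lo hi with
  | nil => simp [inorder] at hv
  | node a l r ihl ihr =>
    obtain ⟨h1, h2, h3, h4⟩ := bst_node.1 hb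
    obtain ⟨b1, b2, b3, b4⟩ := bd_node hb hB
    simp only [mirT]
    rcases mem_node.1 hv with hv | hv | hv
    · have e := h3 v hv
      have e' : N - a < N - v := by omega
      rw [lm_gt e', rh_gt e', rh_lt e, lm_lt e]
      exact ihl h1 b3 (by omega) hv
    · subst hv
      rw [lm_self, rh_self, lm_self, rh_self]
      exact ⟨rfl, rfl⟩
    · have e := h4 v hv
      have e2 := b4 v hv
      have e' : N - v < N - a := by omega
      rw [lm_lt e', rh_lt e', rh_gt e, lm_gt e]
      exact ihr h2 b4 hi' hv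

theorem mirT_mem {N lo hi v : ℕ} {T : BinaryTree ℕ} (hB : Bd lo hi T) (hi' : hi ≤ N)
    (hv : v ≤ N) : N - v ∈ inorder (mirT (fun v => N - v) T) ↔ v ∈ inorder T := by
  rw [ta_mem]
  constructor
  · rintro ⟨u, hu, e⟩
    have := hB u hu
    have : u = v := by omega
    exact this ▸ hu
  · intro h
    exact ⟨v, h, rfl⟩
-- END ta

-- MODULE tb
/-- The mirror image of a run. -/
def Run.mir (R : Run) : Run where
  top := R.top
  m := R.m
  T t := mirT (fun v => R.top - v) (R.T t)
  k t := (R.k t).mir
  X t := R.top - R.X t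
  a t := R.top - R.b t
  b t := R.top - R.a t
  bst := by
    intro t ht
    exact (mirT_bst (R.bst t ht) (R.bd t ht) (R.bt t ht)).1
  bd := by
    intro t ht
    exact (mirT_bst (R.bst t ht) (R.bd t ht) (R.bt t ht)).2
  ab := by
    intro t ht
    have := R.ab t ht
    have := R.bt t ht
    omega
  bt := by
    intro t ht
    omega
  popL := by
    intro t ht hk
    have hk' : R.k t = Kd.popR := by
      cases h : R.k t <;> simp_all [Kd.mir]
    obtain ⟨h1, h2, h3, h4⟩ := R.popR t ht hk'
    have hB := R.bd t ht.le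
    have hi := R.bt t ht.le
    have hs := mirT_splay (R.bst t ht.le) h1 (anti_sub hB hi h1)
    rw [h2] at hs
    refine ⟨(mirT_mem hB hi (by have := hB _ h1; omega)).2 h1, ?_, by rw [h4], by rw [h3]⟩
    simpa [mirT] using hs
  popR := by
    intro t ht hk
    have hk' : R.k t = Kd.popL := by
      cases h : R.k t <;> simp_all [Kd.mir]
    obtain ⟨h1, h2, h3, h4⟩ := R.popL t ht hk'
    have hB := R.bd t ht.le
    have hi := R.bt t ht.le
    have hs := mirT_splay (R.bst t ht.le) h1 (anti_sub hB hi h1)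
    rw [h2] at hs
    refine ⟨(mirT_mem hB hi (by have := hB _ h1; omega)).2 h1, ?_, by rw [h4], by rw [h3]⟩
    simpa [mirT] using hs
  pushL := by
    intro t ht hk
    have hk' : R.k t = Kd.pushR := by
      cases h : R.k t <;> simp_all [Kd.mir]
    obtain ⟨h1, h2, h3⟩ := R.pushR t ht hk'
    refine ⟨?_, by rw [h3], by rw [h2]⟩
    rw [h1]
    simp [mirT]
  pushR := by
    intro t ht hk
    have hk' : R.k t = Kd.pushL := by
      cases h : R.k t <;> simp_all [Kd.mir]
    obtain ⟨h1, h2, h3⟩ := R.pushL t ht hk'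
    refine ⟨?_, by rw [h3], by rw [h2]⟩
    rw [h1]
    simp [mirT]
-- END tb

namespace Run

variable {R : Run} {s t u v w p g q b : ℕ}

/-- the keys touched by a left pop -/
noncomputable def tE (R : Run) (t : ℕ) : Finset ℕ :=
  (inorder (R.T t)).toFinset.filter (fun v => v ≠ R.X t ∧ R.lam t v < R.X t)

/-- the keys `≥ M` with `lam < M` -/
noncomputable def up (R : Run) (t : ℕ) : Finset ℕ :=
  (inorder (R.T t)).toFinset.filter (fun v => R.M ≤ v ∧ R.lam t v < R.M)

-- MODULE tc
private theorem tc_up (R : Run) (t v : ℕ) :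
    v ∈ R.up t ↔ R.A t v ∧ R.M ≤ v ∧ R.lam t v < R.M := by
  simp [up, A]

private theorem tc_tE (R : Run) (t v : ℕ) :
    v ∈ R.tE t ↔ R.A t v ∧ v ≠ R.X t ∧ R.lam t v < R.X t := by
  simp [tE, A]

theorem up_popL (ht : t < R.m) (h : R.k t = Kd.popL) :
    ((R.tE t).filter (fun v => R.M ≤ v)).card + 2 * (R.up (t + 1)).card ≤
      2 * (R.up t).card + 2 := by
  have hA := popL_A ht h
  have hpop := R.popL t ht h
  have hmin : ∀ v, R.A t v → v ≠ R.X t → R.X t < v := fun v hv hne =>
    popL_min ht h (((hA.2 v).1 hv).resolve_left hne)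
  have hM := X_lt_M ht h
  set S := R.one t ht.le hA.1 with hS
  have hSX : S.X 0 = R.X t := rfl
  have hSK : ∀ v, v ∈ S.K ↔ R.A t v := fun v => List.mem_toFinset
  have hSlam1 : ∀ v, R.X t < v → S.lam 1 v = R.lam (t + 1) v := by
    intro v hv
    show lm v (splay (R.X t) (R.T t)) 0 = lm v (R.T (t + 1)) (R.a (t + 1))
    rw [hpop.2.1, lm_gt hv, hpop.2.2.1]
  have haX : R.a t < R.X t := (A_bd ht.le hA.1).1
  have hSlam0 : ∀ v, R.A t v → (S.lam 0 v < R.X t ↔ R.lam t v < R.X t) := by
    intro v hv
    have h1 := lm_wall (lo' := 0) (R.bst t ht.le) (R.bd t ht.le) hv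
    show lm v (R.T t) 0 < R.X t ↔ lm v (R.T t) (R.a t) < R.X t
    by_cases h2 : lm v (R.T t) (R.a t) = R.a t
    · rw [h1.1 h2, h2]
      omega
    · rw [h1.2 h2]
  have hSR : ∀ v, S.R 0 v ↔ v ∈ R.tE t := by
    intro v
    rw [tc_tE]
    constructor
    · rintro ⟨_, h2, h3, h4⟩
      have h5 := (hSK v).1 h2
      rw [hSX] at h3 h4
      exact ⟨h5, h3.ne', (hSlam0 v h5).1 h4⟩
    · rintro ⟨h2, h3, h4⟩
      exact ⟨Nat.zero_lt_one, (hSK v).2 h2, hmin v h2 h3, (hSlam0 v h2).2 h4⟩
  have hwall : ∀ v, S.R 0 v → S.lam 0 v = 0 := by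
    intro v hv
    rcases S.lam_mem 0 (Nat.zero_le _) v hv.2.1 with h1 | h1
    · exact h1
    · exfalso
      have h2 := (hSK _).1 h1
      have h3 := hv.2.2.2
      rw [hSX] at h3
      have h4 := hmin _ h2 h3.ne
      omega
  have hTn : (Tn S 0) = ∅ := by
    unfold Tn
    rw [Finset.filter_eq_empty_iff]
    rintro v _ ⟨h1, y, h2, _, h3⟩
    exact h3 ((hwall v h1).trans (hwall y h2).symm)
  have hch := chain (thr_sys (T := R.T t) (X := fun _ => R.X t) (m := 1) (top := R.top)
    (R.bst t ht.le) (fun _ _ => hA.1) (bd0 ht.le)) 0 R.M (R.top + 1)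
  change (S.K.filter (fun v => S.R 0 v ∧ R.M ≤ v ∧ v < R.top + 1)).card ≤
      2 * (S.K.filter (fun v => (S.R 0 v ∧ R.M ≤ v ∧ v < R.top + 1) ∧
        ∃ p, R.M ≤ p ∧ S.Kl 0 v p)).card +
      2 * ((Tn S 0).filter (fun v => R.M ≤ v ∧ v < R.top + 1)).card + 2 at hch
  rw [hTn, Finset.filter_empty, Finset.card_empty] at hch
  set D := (R.tE t).filter (fun v => R.M ≤ v ∧ R.M ≤ R.lam (t + 1) v) with hD
  have e1 : ((R.tE t).filter (fun v => R.M ≤ v)).card ≤
      (S.K.filter (fun v => S.R 0 v ∧ R.M ≤ v ∧ v < R.top + 1)).card := by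
    apply Finset.card_le_card
    intro v hv
    rw [Finset.mem_filter] at hv ⊢
    have h1 := (tc_tE R t v).1 hv.1
    have h2 := A_bd ht.le h1.1
    have h3 := R.bt t ht.le
    exact ⟨(hSK v).2 h1.1, (hSR v).2 hv.1, hv.2, by omega⟩
  have e2 : (S.K.filter (fun v => (S.R 0 v ∧ R.M ≤ v ∧ v < R.top + 1) ∧
      ∃ p, R.M ≤ p ∧ S.Kl 0 v p)).card ≤ D.card := by
    apply Finset.card_le_card
    intro v hv
    rw [Finset.mem_filter] at hv
    obtain ⟨_, ⟨h1, h2, _⟩, p, h3, h4⟩ := hv
    rw [hD, Finset.mem_filter]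
    refine ⟨(hSR v).1 h1, h2, ?_⟩
    have h5 : S.lam 1 v = p := h4.2.2
    have h6 : R.X t < v := h1.2.2.1
    rw [← hSlam1 v h6, h5]
    exact h3
  have e3 : (R.up (t + 1)).card + D.card ≤ (R.up t).card := by
    rw [← Finset.card_union_of_disjoint]
    · apply Finset.card_le_card
      intro v hv
      rw [tc_up]
      rcases Finset.mem_union.1 hv with h1 | h1
      · rw [tc_up] at h1
        obtain ⟨h2, h3, h4⟩ := h1
        refine ⟨(hA.2 v).2 (Or.inr h2), h3, ?_⟩
        rcases popL_RF ht h h2 with h5 | h5 | h5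
        · rw [← h5.2.1]
          exact h4
        · exact h5.1.trans hM
        · exact h5.1.trans hM
      · rw [hD, Finset.mem_filter, tc_tE] at h1
        obtain ⟨⟨h2, h3, h4⟩, h5, _⟩ := h1
        exact ⟨h2, h5, h4.trans hM⟩
    · rw [Finset.disjoint_left]
      intro v h1 h2
      rw [tc_up] at h1
      rw [hD, Finset.mem_filter] at h2
      omega
  omega
-- END tc

-- MODULE td
private theorem td_up (R : Run) (t v : ℕ) :
    v ∈ R.up t ↔ R.A t v ∧ R.M ≤ v ∧ R.lam t v < R.M := by
  simp [up, A]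

theorem up_popR (ht : t < R.m) (h : R.k t = Kd.popR) :
    (R.up (t + 1)).card ≤ (R.up t).card + 1 := by
  have hA := popR_A ht h
  -- a new element
  have key : ∀ v, v ∈ R.up (t + 1) → v ∉ R.up t → R.A t v ∧ v < R.X t ∧ R.X t < R.rho t v ∧
      R.A t (R.lam t v) ∧ R.rho t (R.lam t v) = R.rho t v ∧ R.M ≤ R.lam t v ∧
      R.lam t (R.lam t v) < R.M := by
    intro v h1 h2
    rw [td_up] at h1 h2
    obtain ⟨h3, h4, h5⟩ := h1
    have h6 : R.A t v := (hA.2 v).2 (Or.inr h3)
    have h7 := popR_max ht h h3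
    have h8 : R.M ≤ R.lam t v := by
      by_contra h9
      exact h2 ⟨h6, h4, by omega⟩
    rcases popR_LF ht h h3 with h9 | ⟨h9, _, h10 | ⟨h10, h11, h12, h13, h14⟩⟩ | ⟨_, p, hp⟩
    · have := h9.2.1
      omega
    · omega
    · exact ⟨h6, h7, h9, h10, h11, h8, by omega⟩
    · have := hp.2.2.2.2.1
      omega
  have hone : ((R.up (t + 1)) \ (R.up t)).card ≤ 1 := by
    rw [Finset.card_le_one]
    -- two new elements are equal
    have hlt : ∀ v, v ∈ R.up (t + 1) → v ∉ R.up t → ∀ w, w ∈ R.up (t + 1) → w ∉ R.up t →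
        ¬ v < w := by
      intro v hv hv' w hw hw' hvw
      obtain ⟨a1, a2, a3, a4, a5, a6, a7⟩ := key v hv hv'
      obtain ⟨b1, b2, b3, b4, b5, b6, b7⟩ := key w hw hw'
      have h1 := lam_lt ht.le a1
      have h2 := lam_lt ht.le b1
      have hne : ∀ y z, R.A t y → R.A t z → R.X t < R.rho t y → z < R.X t → R.M ≤ y →
          R.lam t z < R.M → ¬ y < z := by
        intro y z hy hz hy1 hz1 hy2 hz2 hyz
        rcases lamin ht.le hy hz hyz with h3 | h3 | h3
        · omega
        · omega
        · have := lam_lt ht.le hz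
          omega
      have h3 : R.lam t v = R.lam t w := by
        rcases lt_trichotomy (R.lam t v) (R.lam t w) with h4 | h4 | h4
        · exact absurd h4 (hne _ _ a4 b4 (by omega) (by omega) a6 b7)
        · exact h4
        · exact absurd h4 (hne _ _ b4 a4 (by omega) (by omega) b6 a7)
      rcases lamin ht.le a1 b1 hvw with h4 | h4 | h4
      · omega
      · omega
      · omega
    intro v hv w hw
    rw [Finset.mem_sdiff] at hv hw
    rcases lt_trichotomy v w with h1 | h1 | h1
    · exact absurd h1 (hlt v hv.1 hv.2 w hw.1 hw.2)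
    · exact h1
    · exact absurd h1 (hlt w hw.1 hw.2 v hv.1 hv.2)
  have h1 := Finset.card_le_card_sdiff_add_card (s := R.up (t + 1)) (t := R.up t)
  omega
-- END td

-- MODULE te
private theorem te_mem (R : Run) (t v : ℕ) : v ∈ R.up t ↔ R.A t v ∧ R.M ≤ v ∧ R.lam t v < R.M := by
  unfold up A
  rw [Finset.mem_filter, List.mem_toFinset]

theorem up_push (ht : t < R.m) (h : R.k t = Kd.pushL ∨ R.k t = Kd.pushR) :
    (R.up (t + 1)).card ≤ (R.up t).card + 1 := by
  rcases h with h | h
  · rcases Nat.lt_or_ge (R.X t) R.M with hX | hX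
    · have hs : R.up (t + 1) ⊆ R.up t := by
        intro v hv
        rw [te_mem] at hv ⊢
        obtain ⟨h1, h2, h3⟩ := hv
        have h4 : R.A t v := by
          rcases (pushL_A ht h v).1 h1 with h5 | h5
          · omega
          · exact h5
        obtain ⟨h5, h6, _⟩ := pushL_old ht h h4
        have ham := a_mono (R := R) (s := t) (t := R.m) ht.le le_rfl
        refine ⟨h4, h2, ?_⟩
        by_cases h7 : R.lam t v = R.a t
        · rw [h7]; unfold M; omega
        · rw [h6 h7] at h3; exact h3
      have := Finset.card_le_card hs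
      omega
    · have hs : R.up (t + 1) ⊆ {R.X t} := by
        intro v hv
        rw [te_mem] at hv
        obtain ⟨h1, h2, h3⟩ := hv
        rw [Finset.mem_singleton]
        rcases (pushL_A ht h v).1 h1 with h5 | h5
        · exact h5
        · exfalso
          obtain ⟨h6, h7, _⟩ := pushL_old ht h h5
          by_cases h8 : R.lam t v = R.a t
          · have := h6 h8; omega
          · have h9 := h7 h8
            rcases lam_mem ht.le h5 with h10 | h10
            · exact h8 h10
            · have := pushL_min ht h h10; omega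
      have := Finset.card_le_card hs
      rw [Finset.card_singleton] at this
      omega
  · have hs : R.up (t + 1) ⊆ insert (R.X t) (R.up t) := by
      intro v hv
      rw [te_mem] at hv
      obtain ⟨h1, h2, h3⟩ := hv
      rw [Finset.mem_insert, te_mem]
      rcases (pushR_A ht h v).1 h1 with h5 | h5
      · exact Or.inl h5
      · right
        obtain ⟨_, _, h6⟩ := pushR_old ht h h5
        exact ⟨h5, h2, by omega⟩
    exact (Finset.card_le_card hs).trans (Finset.card_insert_le _ _)

theorem up_sum (R : Run) : ∑ t ∈ (Finset.range R.m).filter (fun t => R.k t = Kd.popL),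
    ((R.tE t).filter (fun v => R.M ≤ v)).card ≤ 2 * R.top + 4 * R.m := by
  have key : ∀ n, n ≤ R.m → (∑ t ∈ (Finset.range n).filter (fun t => R.k t = Kd.popL),
      ((R.tE t).filter (fun v => R.M ≤ v)).card) + 2 * (R.up n).card ≤
        2 * (R.up 0).card + 2 * n := by
    intro n
    induction n with
    | zero => intro _; simp
    | succ n ih =>
      intro hn
      have h1 := ih (by omega)
      rw [Finset.range_add_one, Finset.filter_insert]
      by_cases hk : R.k n = Kd.popL
      · rw [if_pos hk, Finset.sum_insert (by simp)]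
        have h2 := up_popL (R := R) (t := n) (by omega) hk
        omega
      · rw [if_neg hk]
        have h2 : (R.up (n + 1)).card ≤ (R.up n).card + 1 := by
          cases hk' : R.k n with
          | popL => exact absurd hk' hk
          | popR => exact up_popR (by omega) hk'
          | pushL => exact up_push (by omega) (Or.inl hk')
          | pushR => exact up_push (by omega) (Or.inr hk')
        omega
  have h0 : (R.up 0).card ≤ R.top := by
    have hs : R.up 0 ⊆ Finset.range R.top := by
      intro v hv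
      rw [te_mem] at hv
      have h1 := A_bd (Nat.zero_le _) hv.1
      have h2 := R.bt 0 (Nat.zero_le _)
      rw [Finset.mem_range]
      omega
    have := Finset.card_le_card hs
    rwa [Finset.card_range] at this
  have h1 := key R.m le_rfl
  omega
-- END te

-- MODULE tf
private theorem tf_mem (R : Run) (t v : ℕ) : v ∈ R.tE t ↔ R.A t v ∧ v ≠ R.X t ∧ R.lam t v < R.X t := by
  unfold tE A
  rw [Finset.mem_filter, List.mem_toFinset]

private theorem tf_inj (R : Run) {t v : ℕ} (ht : t < R.m) (h : R.k t = Kd.popR) (hA : R.A t v)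
    (hv : v ≠ R.X t) (hr : R.X t < R.rho t v) (hM : v < R.M) :
    R.top - v ∈ (R.mir.tE t).filter (fun w => R.mir.M ≤ w) := by
  have hb := R.bt t ht.le
  have h1 := A_bd ht.le hA
  have hX := (popR_A ht h).1
  have h2 := A_bd ht.le hX
  have hl := mirT_lm (R.bst t ht.le) (R.bd t ht.le) hb (v := v) hA
  rw [Finset.mem_filter, tf_mem]
  have hrb : R.rho t v ≤ R.b t := by
    rcases rho_mem ht.le hA with h3 | h3
    · omega
    · exact (A_bd ht.le h3).2.le
  have hbm := M_le_b (R := R) (t := R.m) le_rfl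
  have hbM : R.b R.m ≤ R.b t := b_anti ht.le le_rfl
  refine ⟨⟨?_, ?_, ?_⟩, ?_⟩
  · exact (mirT_mem (R.bd t ht.le) hb (by omega)).2 hA
  · show R.top - v ≠ R.top - R.X t
    omega
  · show lm (R.top - v) (mirT (fun v => R.top - v) (R.T t)) (R.top - R.b t) < R.top - R.X t
    rw [hl.1]
    show R.top - R.rho t v < R.top - R.X t
    omega
  · show R.top - R.b R.m + 1 ≤ R.top - v
    omega

theorem th_le (R : Run) : R.toPop.th ≤ 2 * R.top + 5 * R.m := by
  have hsub : R.toPop.touches ⊆
      (((Finset.range R.m).filter (fun t => R.k t = Kd.popR)).sigma (fun t =>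
        ((R.mir.tE t).filter (fun w => R.mir.M ≤ w)))).image (fun q => (q.1, R.top - q.2)) ∪
      (Finset.range R.m).image (fun t => (t, R.X t)) := by
    intro q hq
    unfold Pop.touches at hq
    rw [Finset.mem_filter, Finset.mem_product, Finset.mem_range] at hq
    obtain ⟨⟨h1, _⟩, h2⟩ := hq
    obtain ⟨h3, h4, h5⟩ := (h2 : R.B q.1 q.2)
    rw [Finset.mem_union]
    rcases h5 with ⟨c1, c2, c3, c4⟩ | ⟨c1, c2⟩
    · left
      rw [Finset.mem_image]
      have hb := R.bt q.1 h3.le
      have hb2 := A_bd h3.le c2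
      refine ⟨⟨q.1, R.top - q.2⟩, ?_, ?_⟩
      · rw [Finset.mem_sigma, Finset.mem_filter, Finset.mem_range]
        exact ⟨⟨h3, c1⟩, tf_inj R h3 c1 c2 c3 c4 h4⟩
      · show (q.1, R.top - (R.top - q.2)) = q
        rw [show R.top - (R.top - q.2) = q.2 by omega]
    · right
      rw [Finset.mem_image]
      exact ⟨q.1, Finset.mem_range.2 h3, by rw [← c2]⟩
  have h1 : R.toPop.th ≤ _ := Finset.card_le_card hsub
  have h2 := up_sum R.mir
  have h3 : (((Finset.range R.m).filter (fun t => R.k t = Kd.popR)).sigma (fun t =>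
      ((R.mir.tE t).filter (fun w => R.mir.M ≤ w)))).card ≤ 2 * R.top + 4 * R.m := by
    rw [Finset.card_sigma]
    refine le_trans (le_of_eq ?_) h2
    refine Finset.sum_congr ?_ (fun _ _ => rfl)
    ext t
    rw [Finset.mem_filter, Finset.mem_filter]
    refine and_congr_right (fun _ => ?_)
    show R.k t = Kd.popR ↔ (R.k t).mir = Kd.popL
    cases R.k t <;> simp [Kd.mir]
  refine h1.trans ((Finset.card_union_le _ _).trans ?_)
  have h4 := Finset.card_image_le (s := (((Finset.range R.m).filter (fun t => R.k t = Kd.popR)).sigma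
    (fun t => ((R.mir.tE t).filter (fun w => R.mir.M ≤ w))))) (f := fun q => (q.1, R.top - q.2))
  have h5 := Finset.card_image_le (s := Finset.range R.m) (f := fun t => (t, R.X t))
  rw [Finset.card_range] at h5
  omega
-- END tf

/-- the cost of the left pops -/
noncomputable def lcost (R : Run) : ℕ :=
  ∑ t ∈ Finset.range R.m, (if R.k t = Kd.popL then depth (R.X t) (R.T t) else 0)

-- MODULE tg
theorem depth_tE (ht : t < R.m) (h : R.k t = Kd.popL) :
    depth (R.X t) (R.T t) ≤ (R.tE t).card := by
  have h1 := R.bst t ht.le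
  have h3 := R.bd t ht.le
  have h5 : R.X t ∈ inorder (R.T t) := (popL_A ht h).1
  rw [← ancs_length, ← List.toFinset_card_of_nodup (ancs_nodup h1 h5)]
  apply Finset.card_le_card
  intro v hv
  rw [List.mem_toFinset] at hv
  obtain ⟨h6, h7⟩ := (mem_ancs h1 h5).1 hv
  have h8 : v ∈ inorder (R.T t) := onP_mem h6
  have h10 := (onP_iff h1 h3 h8 h5).1 h6
  unfold tE
  rw [Finset.mem_filter, List.mem_toFinset]
  exact ⟨h8, h7, h10.1⟩

theorem lcost_le : ∃ C : ℕ, ∀ R : Run, R.lcost ≤ C * (R.top + R.m) := by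
  obtain ⟨C, hC⟩ := pop_main
  refine ⟨12 * C + 8, fun R => ?_⟩
  have hN := hC R.toPop
  have hth := th_le R
  have hup := up_sum R
  have hi : R.toPop.iota = 0 := by
    unfold Pop.iota
    exact Finset.sum_eq_zero fun _ _ => rfl
  have hn : R.toPop.n = R.top := rfl
  have hm : R.toPop.m = R.m := rfl
  rw [hi, hn, hm] at hN
  -- the kills, counted by the times
  have hk : ∑ t ∈ Finset.range R.m,
      ((Finset.range (R.top + 1)).filter (fun g => ∃ p, R.K t p g)).card = R.toPop.N := by
    unfold Pop.N Pop.kills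
    rw [Finset.card_filter, Finset.sum_product]
    refine Finset.sum_congr rfl fun t _ => ?_
    rw [Finset.card_filter]
    rfl
  have h1 : ∀ t ∈ Finset.range R.m,
      (if R.k t = Kd.popL then depth (R.X t) (R.T t) else 0) ≤
      (if R.k t = Kd.popL then ((R.tE t).filter (fun v => R.M ≤ v)).card else 0) +
        (2 * ((Finset.range (R.top + 1)).filter (fun g => ∃ p, R.K t p g)).card + 4) := by
    intro t ht
    rw [Finset.mem_range] at ht
    by_cases h : R.k t = Kd.popL
    · rw [if_pos h, if_pos h]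
      have h2 := depth_tE ht h
      have h3 := many t ht
      have h4 : ((R.tE t).filter (fun v => ¬ R.M ≤ v)).card ≤
          ((Finset.range (R.top + 1)).filter (fun v => R.V t v)).card := by
        apply Finset.card_le_card
        intro v hv
        unfold tE at hv
        rw [Finset.mem_filter, Finset.mem_filter, List.mem_toFinset] at hv
        obtain ⟨⟨h5, h6, h7⟩, h8⟩ := hv
        rw [Finset.mem_filter, Finset.mem_range]
        have h9 := bd0 ht.le v h5
        exact ⟨by omega, ht, h, h5, h6, h7, by omega⟩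
      have h5 := Finset.card_filter_add_card_filter_not (s := R.tE t) (fun v => R.M ≤ v)
      omega
    · rw [if_neg h, if_neg h]
      omega
  have h2 : R.lcost ≤ ∑ t ∈ Finset.range R.m,
      ((if R.k t = Kd.popL then ((R.tE t).filter (fun v => R.M ≤ v)).card else 0) +
        (2 * ((Finset.range (R.top + 1)).filter (fun g => ∃ p, R.K t p g)).card + 4)) :=
    Finset.sum_le_sum h1
  rw [Finset.sum_add_distrib, ← Finset.sum_filter, Finset.sum_add_distrib, ← Finset.mul_sum, hk,
    Finset.sum_const, Finset.card_range, smul_eq_mul] at h2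
  have h3 : R.toPop.N ≤ C * (6 * (R.top + R.m)) :=
    hN.trans (Nat.mul_le_mul_left _ (by omega))
  have h4 : (12 * C + 8) * (R.top + R.m) = 2 * (C * (6 * (R.top + R.m))) + 8 * (R.top + R.m) := by
    ring
  omega
-- END tg

/-- the cost of a run -/
def cost (R : Run) : ℕ := ∑ t ∈ Finset.range R.m, (match R.k t with
  | Kd.popL => 1 + depth (R.X t) (R.T t)
  | Kd.popR => 1 + depth (R.X t) (R.T t)
  | Kd.pushL => 1
  | Kd.pushR => 1)

-- MODULE th
theorem cost_le : ∃ C : ℕ, ∀ R : Run, R.cost ≤ C * (R.top + R.m) := by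
  obtain ⟨C, hC⟩ := lcost_le
  refine ⟨2 * C + 1, fun R => ?_⟩
  have h1 := hC R
  have h2 := hC R.mir
  have h3 : R.mir.lcost = ∑ t ∈ Finset.range R.m,
      (if R.k t = Kd.popR then depth (R.X t) (R.T t) else 0) := by
    unfold lcost
    refine Finset.sum_congr rfl fun t ht => ?_
    have ht' : t < R.m := Finset.mem_range.1 ht
    have h4 : R.mir.k t = (R.k t).mir := rfl
    by_cases h : R.k t = Kd.popR
    · rw [if_pos h, h4, h]
      have h5 : (Kd.popR).mir = Kd.popL := rfl
      rw [h5, if_pos rfl]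
      exact mirT_depth (anti_sub (R.bd t ht'.le) (R.bt t ht'.le) (R.popR t ht' h).1)
    · rw [if_neg h, if_neg]
      rw [h4]
      intro h5
      apply h
      revert h5
      cases R.k t <;> intro h5 <;> first | rfl | cases h5
  have hm : R.mir.top = R.top := rfl
  have hm' : R.mir.m = R.m := rfl
  rw [h3, hm, hm'] at h2
  have h4 : R.cost ≤ ∑ t ∈ Finset.range R.m, (1 + ((if R.k t = Kd.popL then
      depth (R.X t) (R.T t) else 0) + (if R.k t = Kd.popR then depth (R.X t) (R.T t) else 0))) := by
    unfold cost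
    refine Finset.sum_le_sum fun t _ => ?_
    cases h : R.k t <;> simp
  rw [Finset.sum_add_distrib, Finset.sum_add_distrib, Finset.sum_const, Finset.card_range,
    smul_eq_mul] at h4
  unfold lcost at h1
  have h5 : (2 * C + 1) * (R.top + R.m) = C * (R.top + R.m) + C * (R.top + R.m) +
      (R.top + R.m) := by ring
  omega
-- END th

end Run

end Pool.Agent.DqF
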