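import Pool.Agent.SplDq.Fin
import Pool.Agent.MP_c42954_lc.Scan.Relabel

set_option autoImplicit false

/-!
# Runs of deque operations with static names of the keys

The keys which ever exist are named `1, ..., top - 1` in such a way that a key popped from the left
is smaller than all keys which exist then or are pushed later, and a key popped from the right is
larger.  `T t` is the tree before the operation `t`, `X t` the key popped or pushed by it, `a t` the
last key popped from the left before (or `0`), `b t` the last key popped from the right before (or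
`top`).
-/

namespace Pool.Agent.DqF

open BinaryTree Pool.Agent.MP_c42954_lc.Scan Pool.Agent.SplLog Pool.Agent.SplPat Pool.Agent.SplLs
  Pool.Agent.SplDq

/-- The operations: pop from the left / right end, push at the left / right end. -/
inductive Kd
  | popL
  | popR
  | pushL
  | pushR

/-- A run with static names. -/
structure Run where
  top : ℕ
  m : ℕ
  T : ℕ → BinaryTree ℕ
  k : ℕ → Kd
  X : ℕ → ℕ
  a : ℕ → ℕ
  b : ℕ → ℕ
  bst : ∀ t, t ≤ m → IsBST (T t)
  bd : ∀ t, t ≤ m → Bd (a t) (b t) (T t)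
  ab : ∀ t, t ≤ m → a t < b t
  bt : ∀ t, t ≤ m → b t ≤ top
  popL : ∀ t, t < m → k t = Kd.popL → X t ∈ inorder (T t) ∧
    splay (X t) (T t) = .node (X t) .nil (T (t + 1)) ∧ a (t + 1) = X t ∧ b (t + 1) = b t
  popR : ∀ t, t < m → k t = Kd.popR → X t ∈ inorder (T t) ∧
    splay (X t) (T t) = .node (X t) (T (t + 1)) .nil ∧ a (t + 1) = a t ∧ b (t + 1) = X t
  pushL : ∀ t, t < m → k t = Kd.pushL → T (t + 1) = .node (X t) .nil (T t) ∧ a (t + 1) = a t ∧
    b (t + 1) = b t
  pushR : ∀ t, t < m → k t = Kd.pushR → T (t + 1) = .node (X t) (T t) .nil ∧ a (t + 1) = a t ∧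
    b (t + 1) = b t

namespace Run

variable (R : Run)

/-- `v` exists before the operation `t` -/
def A (t v : ℕ) : Prop := v ∈ inorder (R.T t)

/-- the largest smaller ancestor (or the wall `a t`) -/
def lam (t v : ℕ) : ℕ := lm v (R.T t) (R.a t)

/-- the smallest larger ancestor (or the wall `b t`) -/
def rho (t v : ℕ) : ℕ := rh v (R.T t) (R.b t)

/-- every key popped from the left is smaller than `M`, the others are at least `M` -/
def M : ℕ := R.a R.m + 1

/-- visible keys `< M` at a left pop -/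
def V (t v : ℕ) : Prop := t < R.m ∧ R.k t = Kd.popL ∧ R.A t v ∧ v ≠ R.X t ∧ R.lam t v < R.X t ∧
  v < R.M

/-- kills -/
def K (t p g : ℕ) : Prop := R.V t g ∧ R.X t < p ∧ R.lam (t + 1) g = p

/-- touches at right pops, and births by right pushes, of keys `< M` -/
def B (t v : ℕ) : Prop := t < R.m ∧ v < R.M ∧
  ((R.k t = Kd.popR ∧ R.A t v ∧ v ≠ R.X t ∧ R.X t < R.rho t v) ∨ (R.k t = Kd.pushR ∧ v = R.X t))

open scoped Classical in
/-- the key of a left pop, else one more than the last one -/
noncomputable def x (t : ℕ) : ℕ :=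
  if t < R.m then (if R.k t = Kd.popL then R.X t else R.a t + 1) else R.top

variable {R : Run} {s t u v w p g q : ℕ}

/-! ### Facts at one time -/

-- MODULE ra
theorem A_bd (ht : t ≤ R.m) (h : R.A t v) : R.a t < v ∧ v < R.b t := R.bd t ht v h

theorem lam_lt (ht : t ≤ R.m) (h : R.A t v) : R.lam t v < v :=
  (ends (R.bst t ht) (R.bd t ht) h).2.1

theorem lt_rho (ht : t ≤ R.m) (h : R.A t v) : v < R.rho t v :=
  (ends (R.bst t ht) (R.bd t ht) h).2.2.1

theorem lam_mem (ht : t ≤ R.m) (h : R.A t v) : R.lam t v = R.a t ∨ R.A t (R.lam t v) :=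
  (ends (R.bst t ht) (R.bd t ht) h).2.2.2.2.1

theorem rho_mem (ht : t ≤ R.m) (h : R.A t v) : R.rho t v = R.b t ∨ R.A t (R.rho t v) :=
  (ends (R.bst t ht) (R.bd t ht) h).2.2.2.2.2

theorem lamin (ht : t ≤ R.m) (hu : R.A t u) (hv : R.A t v) (h : u < v) :
    (v < R.rho t u ∧ u ≤ R.lam t v ∧ R.rho t v ≤ R.rho t u) ∨
      (R.lam t v < u ∧ R.rho t u ≤ v ∧ R.lam t v ≤ R.lam t u) ∨ R.rho t u ≤ R.lam t v :=
  laminar h (R.bst t ht) (R.bd t ht) hu hv
-- END ra

/-! ### The laws of the operations -/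

-- MODULE rb
theorem popL_A (ht : t < R.m) (h : R.k t = Kd.popL) : R.A t (R.X t) ∧
    ∀ v, R.A t v ↔ v = R.X t ∨ R.A (t + 1) v := by
  obtain ⟨h1, h2, _, _⟩ := R.popL t ht h
  refine ⟨h1, fun v => ?_⟩
  have h3 := splay_inorder (R.bst t ht.le) h1
  unfold A
  rw [← h3, h2, mem_node]
  simp [inorder]

theorem popL_min (ht : t < R.m) (h : R.k t = Kd.popL) (hv : R.A (t + 1) v) : R.X t < v := by
  obtain ⟨h1, h2, _, _⟩ := R.popL t ht h
  have h3 := splay_bst (R.bst t ht.le) h1
  rw [h2] at h3
  exact (bst_node.1 h3).2.2.2 v hv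

theorem popL_RF (ht : t < R.m) (h : R.k t = Kd.popL) (hv : R.A (t + 1) v) :
    RF (fun w => R.A t w) (R.X t) (R.lam t) (R.rho t) (R.lam (t + 1)) (R.rho (t + 1)) v := by
  have hx := popL_min ht h hv
  have hA := popL_A ht h
  obtain ⟨h1, h2, h4, h5⟩ := R.popL t ht h
  have hv' : R.A t v := (hA.2 v).2 (Or.inr hv)
  have h3 := splay_R (R.bst t ht.le) h1 (R.bd t ht.le) hv' hx
  rw [h2] at h3
  refine h3.mono (fun _ hw => hw) hv' (fun _ _ => rfl) (fun _ _ => rfl) ?_ ?_ hx
    (ends (R.bst t ht.le) (R.bd t ht.le) hv').2.2.1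
  · intro w _ hw
    simp only [lam]
    rw [lm_gt hw, h4]
  · intro w _ hw
    simp only [rho]
    rw [rh_gt hw, h5]
-- END rb

-- MODULE rc
theorem popR_A (ht : t < R.m) (h : R.k t = Kd.popR) : R.A t (R.X t) ∧
    ∀ v, R.A t v ↔ v = R.X t ∨ R.A (t + 1) v := by
  obtain ⟨h1, h2, _, _⟩ := R.popR t ht h
  refine ⟨h1, fun v => ?_⟩
  have h3 := splay_inorder (R.bst t ht.le) h1
  unfold A
  rw [← h3, h2, mem_node]
  simp [inorder, or_comm]

theorem popR_max (ht : t < R.m) (h : R.k t = Kd.popR) (hv : R.A (t + 1) v) : v < R.X t := by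
  obtain ⟨h1, h2, _, _⟩ := R.popR t ht h
  have h3 := splay_bst (R.bst t ht.le) h1
  rw [h2] at h3
  exact (bst_node.1 h3).2.2.1 v hv

theorem popR_LF (ht : t < R.m) (h : R.k t = Kd.popR) (hv : R.A (t + 1) v) :
    LF (fun w => R.A t w) (R.X t) (R.lam t) (R.rho t) (R.lam (t + 1)) (R.rho (t + 1)) v := by
  have hx := popR_max ht h hv
  have hA := popR_A ht h
  obtain ⟨h1, h2, h4, h5⟩ := R.popR t ht h
  have hv' : R.A t v := (hA.2 v).2 (Or.inr hv)
  have h3 := splay_L (R.bst t ht.le) h1 (R.bd t ht.le) hv' hx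
  rw [h2] at h3
  refine h3.mono (fun _ hw => hw) hv' (fun _ _ => rfl) (fun _ _ => rfl) ?_ ?_ hx
    (ends (R.bst t ht.le) (R.bd t ht.le) hv').2.1
  · intro w _ hw
    simp only [lam]
    rw [lm_lt hw, h4]
  · intro w _ hw
    simp only [rho]
    rw [rh_lt hw, h5]
-- END rc

-- MODULE rd
/-- moving the walls -/
theorem lm_wall {T : BinaryTree ℕ} {lo lo' hi : ℕ} (hb : IsBST T) (hB : Bd lo hi T)
    (hv : v ∈ inorder T) : (lm v T lo = lo → lm v T lo' = lo') ∧
      (lm v T lo ≠ lo → lm v T lo' = lm v T lo) := by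
  induction T generalizing lo hi with
  | nil => simp [inorder] at hv
  | node a l r ihl ihr =>
    obtain ⟨h1, h2, h3, h4⟩ := bst_node.1 hb
    obtain ⟨b1, b2, b3, b4⟩ := bd_node hb hB
    rcases mem_node.1 hv with h | h | h
    · rw [lm_lt (h3 v h), lm_lt (h3 v h)]
      exact ihl h1 b3 h
    · subst h
      rw [lm_self, lm_self]
      exact ⟨fun _ => rfl, fun hc => absurd rfl hc⟩
    · rw [lm_gt (h4 v h), lm_gt (h4 v h)]
      have c1 := (ends h2 b4 h).1
      exact ⟨fun hc => by omega, fun _ => rfl⟩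

theorem rh_wall {T : BinaryTree ℕ} {lo hi hi' : ℕ} (hb : IsBST T) (hB : Bd lo hi T)
    (hv : v ∈ inorder T) : (rh v T hi = hi → rh v T hi' = hi') ∧
      (rh v T hi ≠ hi → rh v T hi' = rh v T hi) := by
  induction T generalizing lo hi with
  | nil => simp [inorder] at hv
  | node a l r ihl ihr =>
    obtain ⟨h1, h2, h3, h4⟩ := bst_node.1 hb
    obtain ⟨b1, b2, b3, b4⟩ := bd_node hb hB
    rcases mem_node.1 hv with h | h | h
    · rw [rh_lt (h3 v h), rh_lt (h3 v h)]
      have c1 := (ends h1 b3 h).2.2.2.1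
      exact ⟨fun hc => by omega, fun _ => rfl⟩
    · subst h
      rw [rh_self, rh_self]
      exact ⟨fun _ => rfl, fun hc => absurd rfl hc⟩
    · rw [rh_gt (h4 v h), rh_gt (h4 v h)]
      exact ihr h2 b4 h

theorem pushL_A (ht : t < R.m) (h : R.k t = Kd.pushL) (v : ℕ) :
    R.A (t + 1) v ↔ v = R.X t ∨ R.A t v := by
  unfold Run.A
  rw [(R.pushL t ht h).1, mem_node]
  simp [inorder]

theorem pushL_min (ht : t < R.m) (h : R.k t = Kd.pushL) (hv : R.A t v) : R.X t < v := by
  have hb := R.bst (t + 1) ht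
  rw [(R.pushL t ht h).1] at hb
  exact (bst_node.1 hb).2.2.2 v hv

theorem pushL_new (ht : t < R.m) (h : R.k t = Kd.pushL) :
    R.lam (t + 1) (R.X t) = R.a t ∧ R.rho (t + 1) (R.X t) = R.b t := by
  obtain ⟨h1, h2, h3⟩ := R.pushL t ht h
  unfold Run.lam Run.rho
  rw [h1, lm_self, rh_self]
  exact ⟨h2, h3⟩

theorem pushL_old (ht : t < R.m) (h : R.k t = Kd.pushL) (hv : R.A t v) :
    (R.lam t v = R.a t → R.lam (t + 1) v = R.X t) ∧
      (R.lam t v ≠ R.a t → R.lam (t + 1) v = R.lam t v) ∧ R.rho (t + 1) v = R.rho t v := by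
  obtain ⟨h1, h2, h3⟩ := R.pushL t ht h
  have hX := pushL_min ht h hv
  have hw := lm_wall (v := v) (lo' := R.X t) (R.bst t ht.le) (R.bd t ht.le) hv
  unfold Run.lam Run.rho
  rw [h1, lm_gt hX, rh_gt hX, h3]
  exact ⟨hw.1, hw.2, rfl⟩
-- END rd

-- MODULE re
theorem pushR_A (ht : t < R.m) (h : R.k t = Kd.pushR) (v : ℕ) :
    R.A (t + 1) v ↔ v = R.X t ∨ R.A t v := by
  unfold Run.A
  rw [(R.pushR t ht h).1, mem_node]
  simp only [inorder, List.not_mem_nil, or_false]
  tauto

theorem pushR_max (ht : t < R.m) (h : R.k t = Kd.pushR) (hv : R.A t v) : v < R.X t := by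
  have hb := R.bst (t + 1) ht
  rw [(R.pushR t ht h).1] at hb
  exact (bst_node.1 hb).2.2.1 v hv

theorem pushR_new (ht : t < R.m) (h : R.k t = Kd.pushR) :
    R.lam (t + 1) (R.X t) = R.a t ∧ R.rho (t + 1) (R.X t) = R.b t := by
  obtain ⟨h1, h2, h3⟩ := R.pushR t ht h
  unfold Run.lam Run.rho
  rw [h1, lm_self, rh_self]
  exact ⟨h2, h3⟩

theorem pushR_old (ht : t < R.m) (h : R.k t = Kd.pushR) (hv : R.A t v) :
    (R.rho t v = R.b t → R.rho (t + 1) v = R.X t) ∧
      (R.rho t v ≠ R.b t → R.rho (t + 1) v = R.rho t v) ∧ R.lam (t + 1) v = R.lam t v := by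
  obtain ⟨h1, h2, h3⟩ := R.pushR t ht h
  have hX := pushR_max ht h hv
  have hw := rh_wall (v := v) (hi' := R.X t) (R.bst t ht.le) (R.bd t ht.le) hv
  unfold Run.lam Run.rho
  rw [h1, lm_lt hX, rh_lt hX, h2]
  exact ⟨hw.1, hw.2, rfl⟩
-- END re

/-! ### The walls -/

-- MODULE rf
private theorem rf_step (ht : t < R.m) : R.a t ≤ R.a (t + 1) ∧ R.b (t + 1) ≤ R.b t := by
  rcases hk : R.k t with _ | _ | _ | _
  · obtain ⟨h1, h2, h3, h4⟩ := R.popL t ht hk
    have h5 := A_bd (R := R) ht.le (v := R.X t) h1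
    omega
  · obtain ⟨h1, h2, h3, h4⟩ := R.popR t ht hk
    have h5 := A_bd (R := R) ht.le (v := R.X t) h1
    omega
  · obtain ⟨h1, h2, h3⟩ := R.pushL t ht hk
    omega
  · obtain ⟨h1, h2, h3⟩ := R.pushR t ht hk
    omega

theorem a_mono (h : s ≤ t) (ht : t ≤ R.m) : R.a s ≤ R.a t := by
  induction t, h using Nat.le_induction with
  | base => exact le_rfl
  | succ u hu ih =>
    have h1 := ih (by omega)
    have h2 := (rf_step (R := R) (t := u) (by omega)).1
    omega

theorem b_anti (h : s ≤ t) (ht : t ≤ R.m) : R.b t ≤ R.b s := by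
  induction t, h using Nat.le_induction with
  | base => exact le_rfl
  | succ u hu ih =>
    have h1 := ih (by omega)
    have h2 := (rf_step (R := R) (t := u) (by omega)).2
    omega

/-- a key popped from the left is smaller than `M` -/
theorem X_lt_M (ht : t < R.m) (h : R.k t = Kd.popL) : R.X t < R.M := by
  obtain ⟨h1, h2, h3, h4⟩ := R.popL t ht h
  have h5 := a_mono (R := R) (s := t + 1) (t := R.m) (by omega) le_rfl
  unfold M
  omega

/-- a key popped from the right is at least `M` -/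
theorem M_le_X (ht : t < R.m) (h : R.k t = Kd.popR) : R.M ≤ R.X t := by
  obtain ⟨h1, h2, h3, h4⟩ := R.popR t ht h
  have h5 := b_anti (R := R) (s := t + 1) (t := R.m) (by omega) le_rfl
  have h6 := R.ab R.m le_rfl
  unfold M
  omega

theorem M_le_b (ht : t ≤ R.m) : R.M ≤ R.b t := by
  have h5 := b_anti (R := R) (s := t) (t := R.m) ht le_rfl
  have h6 := R.ab R.m le_rfl
  unfold M
  omega

/-- a key `< M` which is not popped from the left stays -/
theorem stay (h : R.A s v) (hst : s ≤ t) (ht : t ≤ R.m) (hv : v < R.M) (ha : R.a t < v) :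
    R.A t v := by
  induction t, hst using Nat.le_induction with
  | base => exact h
  | succ u hu ih =>
    have hum : u < R.m := by omega
    have h1 := (rf_step (R := R) (t := u) hum).1
    have h2 := ih (by omega) (by omega)
    rcases hk : R.k u with _ | _ | _ | _
    · rcases ((popL_A hum hk).2 v).1 h2 with h3 | h3
      · have h4 := (R.popL u hum hk).2.2.1
        omega
      · exact h3
    · rcases ((popR_A hum hk).2 v).1 h2 with h3 | h3
      · have h4 := M_le_X hum hk
        omega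
      · exact h3
    · exact (pushL_A hum hk v).2 (Or.inr h2)
    · exact (pushR_A hum hk v).2 (Or.inr h2)

/-- the birth of a key -/
theorem birth (h : R.A t v) (hst : s ≤ t) (ht : t ≤ R.m) (hs : ¬ R.A s v) :
    ∃ u, s ≤ u ∧ u < t ∧ ¬ R.A u v ∧ (R.k u = Kd.pushL ∨ R.k u = Kd.pushR) ∧ R.X u = v := by
  induction t, hst using Nat.le_induction with
  | base => exact absurd h hs
  | succ u hu ih =>
    by_cases hA : R.A u v
    · obtain ⟨w, h1, h2, h3⟩ := ih hA (by omega)
      exact ⟨w, h1, by omega, h3⟩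
    · have hum : u < R.m := by omega
      refine ⟨u, hu, by omega, hA, ?_⟩
      rcases hk : R.k u with _ | _ | _ | _
      · exact absurd (((popL_A hum hk).2 v).2 (Or.inr h)) hA
      · exact absurd (((popR_A hum hk).2 v).2 (Or.inr h)) hA
      · rcases (pushL_A hum hk v).1 h with h3 | h3
        · exact ⟨Or.inl rfl, h3.symm⟩
        · exact absurd h3 hA
      · rcases (pushR_A hum hk v).1 h with h3 | h3
        · exact ⟨Or.inr rfl, h3.symm⟩
        · exact absurd h3 hA
-- END rf

/-! ### Untouched keys -/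

-- MODULE rg
/-- a key with `lam` an existing key which is not popped and with `rho < M` does not change -/
theorem buried (hv : R.A s v) (hst : s ≤ t) (ht : t ≤ R.m) (hp : R.a t < R.lam s v)
    (hr : R.rho s v < R.M) : R.A t v ∧ R.lam t v = R.lam s v ∧ R.rho t v = R.rho s v := by
  induction t, hst using Nat.le_induction with
  | base => exact ⟨hv, rfl, rfl⟩
  | succ u hu ih =>
    have hum : u < R.m := by omega
    have h1 := (rf_step (R := R) (t := u) hum).1
    obtain ⟨h2, h3, h4⟩ := ih (by omega) (by omega)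
    have h5 := lam_lt hum.le h2
    have h6 := lt_rho hum.le h2
    rcases hk : R.k u with _ | _ | _ | _
    · have h7 := (R.popL u hum hk).2.2.1
      rcases ((popL_A hum hk).2 v).1 h2 with h8 | h8
      · omega
      · refine ⟨h8, ?_⟩
        rcases popL_RF hum hk h8 with h9 | h9 | h9
        · obtain ⟨h9, h10, h11⟩ := h9
          exact ⟨by omega, by omega⟩
        · have := h9.1
          omega
        · have := h9.1
          omega
    · have h7 := M_le_X hum hk
      rcases ((popR_A hum hk).2 v).1 h2 with h8 | h8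
      · omega
      · refine ⟨h8, ?_⟩
        rcases popR_LF hum hk h8 with h9 | h9 | h9
        · obtain ⟨h9, h10, h11⟩ := h9
          exact ⟨by omega, by omega⟩
        · have := h9.1
          omega
        · have := h9.1
          omega
    · obtain ⟨h7, h8, h9⟩ := pushL_old hum hk h2
      refine ⟨(pushL_A hum hk v).2 (Or.inr h2), ?_, by omega⟩
      have := h8 (by omega)
      omega
    · obtain ⟨h7, h8, h9⟩ := pushR_old hum hk h2
      refine ⟨(pushR_A hum hk v).2 (Or.inr h2), by omega, ?_⟩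
      have h10 := M_le_b (R := R) hum.le
      have := h8 (by omega)
      omega

/-- a key with `lam` an existing key which is not popped keeps `lam` as long as it is not
touched from the right -/
theorem hidden (hv : R.A s v) (hst : s ≤ t) (ht : t ≤ R.m) (hp : R.a t < R.lam s v)
    (hM : v < R.M) (hN : ∀ u, s ≤ u → u < t → ¬ R.B u v) : R.A t v ∧ R.lam t v = R.lam s v := by
  induction t, hst using Nat.le_induction with
  | base => exact ⟨hv, rfl⟩
  | succ u hu ih =>
    have hum : u < R.m := by omega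
    have h1 := (rf_step (R := R) (t := u) hum).1
    obtain ⟨h2, h3⟩ := ih (by omega) (by omega) (fun w hw1 hw2 => hN w hw1 (by omega))
    have hnB := hN u hu (by omega)
    have h5 := lam_lt hum.le h2
    rcases hk : R.k u with _ | _ | _ | _
    · have h7 := (R.popL u hum hk).2.2.1
      rcases ((popL_A hum hk).2 v).1 h2 with h8 | h8
      · omega
      · refine ⟨h8, ?_⟩
        rcases popL_RF hum hk h8 with h9 | h9 | h9
        · obtain ⟨h9, h10, h11⟩ := h9
          omega
        · have := h9.1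
          omega
        · have := h9.1
          omega
    · have h7 := M_le_X hum hk
      rcases ((popR_A hum hk).2 v).1 h2 with h8 | h8
      · omega
      · refine ⟨h8, ?_⟩
        have h10 : ¬ R.X u < R.rho u v := fun h =>
          hnB ⟨hum, hM, Or.inl ⟨hk, h2, by omega, h⟩⟩
        rcases popR_LF hum hk h8 with h9 | h9 | h9
        · obtain ⟨h9, h10, h11⟩ := h9
          omega
        · exact absurd h9.1 h10
        · exact absurd h9.1 h10
    · obtain ⟨h7, h8, h9⟩ := pushL_old hum hk h2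
      refine ⟨(pushL_A hum hk v).2 (Or.inr h2), ?_⟩
      have := h8 (by omega)
      omega
    · obtain ⟨h7, h8, h9⟩ := pushR_old hum hk h2
      exact ⟨(pushR_A hum hk v).2 (Or.inr h2), by omega⟩
-- END rg

end Run

end Pool.Agent.DqF
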